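import Mathlib

/-!
A set that is constant on most short intervals, along a set with the expected number of elements in most
short intervals.
-/

set_option autoImplicit false

open Finset

namespace Pool.Agent.Helper51.WP

/-- the sum over a window -/
noncomputable def win (ρ : ℕ → ℝ) (v a : ℕ) : ℝ := ∑ h ∈ Ioc 0 v, ρ (a + h)

theorem shift_le (f : ℕ → ℝ) (hf : ∀ n, 0 ≤ f n ∧ f n ≤ 1) (N h : ℕ) :
    |∑ y ∈ Icc 1 N, f y - ∑ a ∈ Icc 1 N, f (a + h)| ≤ h := by
  have h1 : ∑ a ∈ Icc 1 N, f (a + h) = ∑ y ∈ Icc (1 + h) (N + h), f y := by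
    rw [← Finset.map_add_right_Icc, sum_map]
    rfl
  have h2 : ∑ y ∈ Icc 1 (N + h), f y = ∑ y ∈ Icc 1 N, f y + ∑ y ∈ Ioc N (N + h), f y := by
    rw [← sum_union]
    · congr 1
      ext y
      rw [mem_union, mem_Icc, mem_Icc, mem_Ioc]
      omega
    · rw [disjoint_left]
      intro y h1 h2
      rw [mem_Icc] at h1
      rw [mem_Ioc] at h2
      omega
  have h3 : ∑ y ∈ Icc 1 (N + h), f y = ∑ y ∈ Icc 1 h, f y + ∑ y ∈ Icc (1 + h) (N + h), f y := by
    rw [← sum_union]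
    · congr 1
      ext y
      rw [mem_union, mem_Icc, mem_Icc, mem_Icc]
      omega
    · rw [disjoint_left]
      intro y h1 h2
      rw [mem_Icc] at h1 h2
      omega
  have b1 : ∀ s : Finset ℕ, 0 ≤ ∑ y ∈ s, f y ∧ ∑ y ∈ s, f y ≤ s.card := by
    intro s
    constructor
    · exact sum_nonneg fun y _ => (hf y).1
    · calc ∑ y ∈ s, f y ≤ ∑ _y ∈ s, (1 : ℝ) := sum_le_sum fun y _ => (hf y).2
        _ = s.card := by rw [sum_const, nsmul_eq_mul, mul_one]
  have b2 := b1 (Ioc N (N + h))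
  have b3 := b1 (Icc 1 h)
  rw [Nat.card_Ioc, Nat.add_sub_cancel_left] at b2
  rw [Nat.card_Icc, Nat.add_sub_cancel] at b3
  rw [h1, abs_le]
  constructor <;> linarith

/-- the sum over the elements of `E` of the windows -/
theorem winE (ρ : ℕ → ℝ) (N v : ℕ) (lam ε η : ℝ) (hlam : 0 ≤ lam)
    (hw : ∑ a ∈ Icc 1 N, |win ρ v a - lam| ≤ ε * (lam * N)) (E : Finset ℕ) (hE : E ⊆ Icc 1 N)
    (hEc : (E.card : ℝ) ≤ η * N) : ∑ a ∈ E, win ρ v a ≤ (η + ε) * (lam * N) := by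
  have h1 : ∑ a ∈ E, win ρ v a ≤ ∑ a ∈ E, (lam + |win ρ v a - lam|) := by
    apply sum_le_sum
    intro a _
    have := le_abs_self (win ρ v a - lam)
    linarith
  refine h1.trans ?_
  rw [sum_add_distrib, sum_const, nsmul_eq_mul]
  have h2 : ∑ a ∈ E, |win ρ v a - lam| ≤ ε * (lam * N) :=
    (sum_le_sum_of_subset_of_nonneg hE fun _ _ _ => abs_nonneg _).trans hw
  have h3 : (E.card : ℝ) * lam ≤ (η * N) * lam := mul_le_mul_of_nonneg_right hEc hlam
  linarith

open Classical in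
/-- equidistribution -/
theorem eqd (ρ : ℕ → ℝ) (hρ : ∀ n, 0 ≤ ρ n ∧ ρ n ≤ 1) (N v : ℕ) (hv : 1 ≤ v) (V ε η δ : ℝ) (hV : 0 ≤ V)
    (hε : 0 ≤ ε) (hη : 0 ≤ η)
    (hw : ∑ a ∈ Icc 1 N, |win ρ v a - v * V| ≤ ε * ((v * V) * N)) (E : Finset ℕ) (hE : E ⊆ Icc 1 N)
    (hEc : (E.card : ℝ) ≤ η * N) (P : ℕ → Prop)
    (hP : ∀ n ∈ Icc 1 N, n ∉ E → ∀ h ∈ Ioc 0 v, (P (n + h) ↔ P n))
    (hδ : |(((Icc 1 N).filter P).card : ℝ) - δ * N| ≤ η * N) :
    |∑ y ∈ (Icc 1 N).filter P, ρ y - δ * (V * N)| ≤ (3 * η + 2 * ε) * (V * N) + v := by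
  have hv0 : (0 : ℝ) < v := by exact_mod_cast hv
  obtain ⟨lam, hlam⟩ : ∃ lam : ℝ, lam = v * V := ⟨_, rfl⟩
  have hlam0 : 0 ≤ lam := by rw [hlam]; positivity
  rw [← hlam] at hw
  let f : ℕ → ℝ := fun n => if P n then ρ n else 0
  have hf : ∀ n, 0 ≤ f n ∧ f n ≤ 1 := by
    intro n
    simp only [f]
    split_ifs
    · exact hρ n
    · exact ⟨le_rfl, zero_le_one⟩
  have hfρ : ∀ n, f n ≤ ρ n := by
    intro n
    simp only [f]
    split_ifs
    · exact le_rfl
    · exact (hρ n).1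
  have h0 : ∑ y ∈ (Icc 1 N).filter P, ρ y = ∑ y ∈ Icc 1 N, f y := by
    rw [sum_filter]
  rw [h0]
  -- average over the shifts
  have h1 : |v * ∑ y ∈ Icc 1 N, f y - ∑ a ∈ Icc 1 N, win f v a| ≤ v * v := by
    have e1 : ∑ a ∈ Icc 1 N, win f v a = ∑ h ∈ Ioc 0 v, ∑ a ∈ Icc 1 N, f (a + h) := by
      unfold win
      exact sum_comm
    have e2 : v * ∑ y ∈ Icc 1 N, f y = ∑ _h ∈ Ioc 0 v, ∑ y ∈ Icc 1 N, f y := by
      rw [sum_const, nsmul_eq_mul, Nat.card_Ioc, Nat.sub_zero]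
    rw [e1, e2, ← sum_sub_distrib]
    refine (abs_sum_le_sum_abs _ _).trans ?_
    calc ∑ h ∈ Ioc 0 v, |∑ y ∈ Icc 1 N, f y - ∑ a ∈ Icc 1 N, f (a + h)| ≤ ∑ _h ∈ Ioc 0 v, (v : ℝ) := by
          apply sum_le_sum
          intro h hh
          rw [mem_Ioc] at hh
          exact (shift_le f hf N h).trans (by exact_mod_cast hh.2)
      _ = v * v := by rw [sum_const, nsmul_eq_mul, Nat.card_Ioc, Nat.sub_zero]
  -- the good windows
  have hwf0 : ∀ a, 0 ≤ win f v a := fun a => sum_nonneg fun h _ => (hf _).1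
  have hwfρ : ∀ a, win f v a ≤ win ρ v a := fun a => sum_le_sum fun h _ => hfρ _
  have hEs := winE ρ N v lam ε η hlam0 hw E hE hEc
  have h2 : ∑ a ∈ Icc 1 N, win f v a = ∑ a ∈ (Icc 1 N).filter (fun a => a ∈ E), win f v a +
      ∑ a ∈ (Icc 1 N).filter (fun a => ¬ a ∈ E), win f v a := (sum_filter_add_sum_filter_not _ _ _).symm
  have h3 : (Icc 1 N).filter (fun a => a ∈ E) = E := by
    ext a
    rw [mem_filter]
    exact ⟨fun h => h.2, fun h => ⟨hE h, h⟩⟩
  have h4 : ∑ a ∈ (Icc 1 N).filter (fun a => ¬ a ∈ E), win f v a =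
      ∑ a ∈ (Icc 1 N).filter (fun a => ¬ a ∈ E), (if P a then win ρ v a else 0) := by
    apply sum_congr rfl
    intro a ha
    rw [mem_filter] at ha
    by_cases hPa : P a
    · rw [if_pos hPa]
      apply sum_congr rfl
      intro h hh
      simp only [f]
      rw [if_pos ((hP a ha.1 ha.2 h hh).2 hPa)]
    · rw [if_neg hPa]
      apply sum_eq_zero
      intro h hh
      simp only [f]
      rw [if_neg (fun hc => hPa ((hP a ha.1 ha.2 h hh).1 hc))]
  have h5 : |∑ a ∈ (Icc 1 N).filter (fun a => ¬ a ∈ E), (if P a then win ρ v a else 0) -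
      lam * (((Icc 1 N).filter (fun a => ¬ a ∈ E)).filter P).card| ≤ ε * (lam * N) := by
    have e1 : lam * (((Icc 1 N).filter (fun a => ¬ a ∈ E)).filter P).card =
        ∑ a ∈ (Icc 1 N).filter (fun a => ¬ a ∈ E), (if P a then lam else 0) := by
      rw [← sum_filter, sum_const, nsmul_eq_mul, mul_comm]
    rw [e1, ← sum_sub_distrib]
    refine (abs_sum_le_sum_abs _ _).trans (le_trans ?_ hw)
    refine le_trans (sum_le_sum (g := fun a => |win ρ v a - lam|) ?_)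
      (sum_le_sum_of_subset_of_nonneg (filter_subset _ _) fun _ _ _ => abs_nonneg _)
    intro a _
    split_ifs
    · exact le_rfl
    · simp
  have h6 : |((((Icc 1 N).filter (fun a => ¬ a ∈ E)).filter P).card : ℝ) - δ * N| ≤ 2 * η * N := by
    have e1 : (((Icc 1 N).filter (fun a => ¬ a ∈ E)).filter P).card ≤ ((Icc 1 N).filter P).card := by
      apply card_le_card
      intro a ha
      rw [mem_filter, mem_filter] at ha
      rw [mem_filter]
      exact ⟨ha.1.1, ha.2⟩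
    have e2 : ((Icc 1 N).filter P).card ≤ (((Icc 1 N).filter (fun a => ¬ a ∈ E)).filter P).card + E.card := by
      have : (Icc 1 N).filter P ⊆ ((Icc 1 N).filter (fun a => ¬ a ∈ E)).filter P ∪ E := by
        intro a ha
        rw [mem_filter] at ha
        rw [mem_union, mem_filter, mem_filter]
        by_cases h : a ∈ E
        · exact Or.inr h
        · exact Or.inl ⟨⟨ha.1, h⟩, ha.2⟩
      exact (card_le_card this).trans (card_union_le _ _)
    have e1' : ((((Icc 1 N).filter (fun a => ¬ a ∈ E)).filter P).card : ℝ) ≤ ((Icc 1 N).filter P).card := by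
      exact_mod_cast e1
    have e2' : (((Icc 1 N).filter P).card : ℝ) ≤
        (((Icc 1 N).filter (fun a => ¬ a ∈ E)).filter P).card + E.card := by exact_mod_cast e2
    have e3 := abs_le.1 hδ
    have e4 : 0 ≤ η * N := mul_nonneg hη (Nat.cast_nonneg _)
    rw [abs_le]
    constructor <;> linarith
  have h7 : 0 ≤ ∑ a ∈ E, win f v a := sum_nonneg fun a _ => hwf0 a
  have h8 : ∑ a ∈ E, win f v a ≤ (η + ε) * (lam * N) := (sum_le_sum fun a _ => hwfρ a).trans hEs
  rw [h3, h4] at h2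
  obtain ⟨c, hc⟩ : ∃ c : ℝ, c = (((Icc 1 N).filter (fun a => ¬ a ∈ E)).filter P).card := ⟨_, rfl⟩
  rw [← hc] at h5 h6
  have h9 : |lam * c - lam * (δ * N)| ≤ 2 * η * (lam * N) := by
    rw [← mul_sub, abs_mul, abs_of_nonneg hlam0]
    calc lam * |c - δ * N| ≤ lam * (2 * η * N) := mul_le_mul_of_nonneg_left h6 hlam0
      _ = _ := by ring
  have h10 : |v * ∑ y ∈ Icc 1 N, f y - lam * (δ * N)| ≤ (3 * η + 2 * ε) * (lam * N) + v * v := by
    have a1 := abs_le.1 h1
    have a2 := abs_le.1 h5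
    have a3 := abs_le.1 h9
    rw [abs_le]
    constructor <;> linarith
  have h11 : v * (∑ y ∈ Icc 1 N, f y - δ * (V * N)) = v * ∑ y ∈ Icc 1 N, f y - lam * (δ * N) := by
    rw [hlam]; ring
  have h12 : v * |∑ y ∈ Icc 1 N, f y - δ * (V * N)| ≤ v * ((3 * η + 2 * ε) * (V * N) + v) := by
    calc v * |∑ y ∈ Icc 1 N, f y - δ * (V * N)| = |v * (∑ y ∈ Icc 1 N, f y - δ * (V * N))| := by
          rw [abs_mul, abs_of_pos hv0]
      _ ≤ (3 * η + 2 * ε) * (lam * N) + v * v := by rw [h11]; exact h10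
      _ = _ := by rw [hlam]; ring
  exact le_of_mul_le_mul_left h12 hv0

/-- the elements all of whose predecessors are exceptional -/
theorem bad_le (ρ : ℕ → ℝ) (hρ : ∀ n, 0 ≤ ρ n ∧ ρ n ≤ 1) (N v : ℕ) (hv : 1 ≤ v) (V ε η : ℝ) (hV : 0 ≤ V)
    (hw : ∑ a ∈ Icc 1 N, |win ρ v a - v * V| ≤ ε * ((v * V) * N)) (E : Finset ℕ) (hE : E ⊆ Icc 1 N)
    (hEc : (E.card : ℝ) ≤ η * N) (B : Finset ℕ)
    (hB : ∀ y ∈ B, 1 ≤ y ∧ (v < y → ∀ h ∈ Ioc 0 v, y - h ∈ E)) :
    ∑ y ∈ B, ρ y ≤ (η + ε) * (V * N) + v := by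
  classical
  have hv0 : (0 : ℝ) < v := by exact_mod_cast hv
  have h1 : ∑ y ∈ B, ρ y = ∑ y ∈ B.filter (fun y => v < y), ρ y + ∑ y ∈ B.filter (fun y => ¬ v < y), ρ y :=
    (sum_filter_add_sum_filter_not _ _ _).symm
  have h2 : ∑ y ∈ B.filter (fun y => ¬ v < y), ρ y ≤ v := by
    calc ∑ y ∈ B.filter (fun y => ¬ v < y), ρ y ≤ ∑ _y ∈ B.filter (fun y => ¬ v < y), (1 : ℝ) :=
          sum_le_sum fun y _ => (hρ y).2
      _ = (B.filter (fun y => ¬ v < y)).card := by rw [sum_const, nsmul_eq_mul, mul_one]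
      _ ≤ (Icc 1 v).card := by
          have : B.filter (fun y => ¬ v < y) ⊆ Icc 1 v := by
            intro y hy
            rw [mem_filter] at hy
            rw [mem_Icc]
            exact ⟨(hB y hy.1).1, not_lt.1 hy.2⟩
          exact_mod_cast card_le_card this
      _ = v := by rw [Nat.card_Icc, Nat.add_sub_cancel]
  have h3 : v * ∑ y ∈ B.filter (fun y => v < y), ρ y ≤ ∑ a ∈ E, win ρ v a := by
    have e1 : v * ∑ y ∈ B.filter (fun y => v < y), ρ y =
        ∑ h ∈ Ioc 0 v, ∑ y ∈ B.filter (fun y => v < y), ρ y := by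
      rw [sum_const, nsmul_eq_mul, Nat.card_Ioc, Nat.sub_zero]
    rw [e1]
    have e2 : ∑ a ∈ E, win ρ v a = ∑ h ∈ Ioc 0 v, ∑ a ∈ E, ρ (a + h) := by
      unfold win
      exact sum_comm
    rw [e2]
    apply sum_le_sum
    intro h hh
    have e3 : ∑ y ∈ B.filter (fun y => v < y), ρ y =
        ∑ a ∈ (B.filter (fun y => v < y)).image (fun y => y - h), ρ (a + h) := by
      rw [sum_image]
      · apply sum_congr rfl
        intro y hy
        rw [mem_filter] at hy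
        rw [mem_Ioc] at hh
        rw [Nat.sub_add_cancel (by omega)]
      · intro y hy y' hy' hyy
        rw [mem_coe, mem_filter] at hy hy'
        rw [mem_Ioc] at hh
        simp only at hyy
        omega
    rw [e3]
    apply sum_le_sum_of_subset_of_nonneg
    · intro a ha
      rw [mem_image] at ha
      obtain ⟨y, hy, rfl⟩ := ha
      rw [mem_filter] at hy
      exact (hB y hy.1).2 hy.2 h hh
    · intro a _ _
      exact (hρ _).1
  have h4 := winE ρ N v (v * V) ε η (by positivity) hw E hE hEc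
  have h5 : v * ∑ y ∈ B.filter (fun y => v < y), ρ y ≤ v * ((η + ε) * (V * N)) := by
    refine (h3.trans h4).trans (le_of_eq ?_)
    ring
  have h6 := le_of_mul_le_mul_left h5 hv0
  rw [h1]
  linarith

end Pool.Agent.Helper51.WP
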