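import Pool.Agent.Helper51.WP.TupW
import Pool.Graph.R_seed8.TH204.CP.Collatz3

/-!
Tuples without small prime factors: coalescence, and the invariant sets
-/

set_option autoImplicit false

open Finset Filter

namespace Pool.Agent.Helper51.WP

open Pool.Agent.TH204.CP (Wk exc locS data near_Wk lam kp F1 F2 F3 PS lam_nonneg cnt_cF tlog)
open Pool.Agent.H499R2.CO (Tz)
open Pool.Agent.TH464.PO (AdP QS Sf)

theorem toNat_set (N : ℕ) (E : Finset ℤ) :
    ((((Icc 1 N).filter (fun n : ℕ => (n : ℤ) ∈ E)).card : ℕ) : ℝ) ≤ E.card := by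
  have h : ((Icc 1 N).filter (fun n : ℕ => (n : ℤ) ∈ E)).card ≤ E.card := by
    apply card_le_card_of_injOn (fun n : ℕ => (n : ℤ))
    · intro n hn
      rw [mem_coe, mem_filter] at hn
      exact hn.2
    · intro a _ b _ hab
      have hab' : (a : ℤ) = (b : ℤ) := hab
      exact_mod_cast hab'
  exact_mod_cast h

open Classical in
/-- coalescence and equidistribution -/
theorem eqT {s : ℤ} (hs : s = 1 ∨ s = -1) (K A : ℕ) (hK : 1 ≤ K) (ε : ℝ) (hε : 0 < ε) :
    ∃ r₀ : ℕ, 1 ≤ r₀ ∧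
    ∀ r : ℕ, r₀ ≤ r → ∀ᶠ N : ℕ in atTop, ∀ P : Finset ℕ, P.card = K → (∀ a ∈ P, a ≤ N ^ A) → AdP P →
      0 < Vp P (yy r N) * N ∧
      |∑ y ∈ Icc 1 N, ρ P (yy r N) y - Vp P (yy r N) * N| ≤ ε * (Vp P (yy r N) * N) ∧
      ∑ y ∈ (Icc 1 N).filter (fun y => ¬ Wk s y), ρ P (yy r N) y ≤ ε * (Vp P (yy r N) * N) ∧
      ∀ S : Set ℤ, (∀ x, x ∈ S ↔ Tz 1 x ∈ S) → ∀ δ : ℝ, Pool.Agent.H499R2.ND.HD s S δ →
        |∑ y ∈ (Icc 1 N).filter (fun y : ℕ => s * (y : ℤ) ∈ S), ρ P (yy r N) y -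
          δ * (Vp P (yy r N) * N)| ≤ ε * (Vp P (yy r N) * N) := by
  obtain ⟨η, hη⟩ : ∃ η : ℝ, η = ε / 8 := ⟨_, rfl⟩
  have hη0 : 0 < η := by rw [hη]; positivity
  obtain ⟨x, hx, r₀, hr₀, hwin⟩ := window K A hK η hη0
  obtain ⟨c, hc, hlow⟩ := Vp_low K
  refine ⟨r₀, hr₀, fun r hr => ?_⟩
  filter_upwards [hwin r hr, hlow r (hr₀.trans hr), data hs η hη0 (K + 1), exc hs η hη0, F1, F2, F3 0,
    F3 (K + 1), ev_pow_log (x / (η * c ^ 2) + 1) (2 * K) 1 one_pos,
    tlog.eventually_ge_atTop (x / c), eventually_ge_atTop 3] with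
    N w1 w2 w3 w4 w5 w6 w7 w8 w9 w10 w11 P hP hPA hPad
  obtain ⟨v, hv1, hvx, hw⟩ := w1 P hP hPA hPad
  have w2' := w2 P hP hPad
  obtain ⟨E₁, L, hE₁, hL1, -, hloc, hcnt⟩ := w3
  obtain ⟨E₂, hE₂, hnbr⟩ := w4
  have hN3 : (3 : ℝ) ≤ N := by exact_mod_cast w11
  have hN0 : (0 : ℝ) < N := by linarith
  have hlog : 0 < Real.log N := Real.log_pos (by linarith)
  obtain ⟨V, hV⟩ : ∃ V, V = Vp P (yy r N) := ⟨_, rfl⟩
  rw [← hV] at w2' hvx hw ⊢
  have hlK : 0 < Real.log (N : ℝ) ^ K := by positivity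
  have hV0 : 0 < V := lt_of_lt_of_le (by positivity) w2'
  have hVN : 0 < V * N := by positivity
  have hv_log : (v : ℝ) ≤ x / c * Real.log N ^ K := by
    have h1 : (v : ℝ) * (c / Real.log N ^ K) ≤ x :=
      (mul_le_mul_of_nonneg_left w2' (Nat.cast_nonneg _)).trans hvx
    rw [div_mul_eq_mul_div, le_div_iff₀ hc]
    calc (v : ℝ) * c = v * (c / Real.log N ^ K) * Real.log N ^ K := by field_simp
      _ ≤ x * Real.log N ^ K := by gcongr
  have hv_log2 : (v : ℝ) ≤ Real.log N ^ (K + 1) := by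
    calc (v : ℝ) ≤ x / c * Real.log N ^ K := hv_log
      _ ≤ Real.log N * Real.log N ^ K := by gcongr
      _ = _ := by ring
  have hv_V : (v : ℝ) ≤ η * (V * N) := by
    have h1 : η * (c / Real.log N ^ K * N) ≤ η * (V * N) := by gcongr
    refine le_trans ?_ h1
    have h9 : x / (η * c ^ 2) * Real.log N ^ (2 * K) ≤ N := by
      rw [Real.rpow_one] at w9
      have hx0 : 0 ≤ x / (η * c ^ 2) := by positivity
      have h3 : x / (η * c ^ 2) ≤ (x / (η * c ^ 2) + 1) ^ (2 * K) := by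
        calc x / (η * c ^ 2) ≤ (x / (η * c ^ 2) + 1) ^ 1 := by linarith
          _ ≤ (x / (η * c ^ 2) + 1) ^ (2 * K) :=
              pow_le_pow_right₀ (by linarith) (by omega)
      calc x / (η * c ^ 2) * Real.log N ^ (2 * K) ≤
            (x / (η * c ^ 2) + 1) ^ (2 * K) * Real.log N ^ (2 * K) := by gcongr
        _ = ((x / (η * c ^ 2) + 1) * Real.log N) ^ (2 * K) := by rw [mul_pow]
        _ ≤ N := w9
    have h2 : x / (η * c ^ 2) * Real.log N ^ (2 * K) * (η * c / Real.log N ^ K) ≤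
        N * (η * c / Real.log N ^ K) := by
      gcongr
    calc (v : ℝ) ≤ x / c * Real.log N ^ K := hv_log
      _ = x / (η * c ^ 2) * Real.log N ^ (2 * K) * (η * c / Real.log N ^ K) := by
          rw [show 2 * K = K + K by ring, pow_add]
          field_simp
      _ ≤ N * (η * c / Real.log N ^ K) := h2
      _ = η * (c / Real.log N ^ K * N) := by ring
  have hlamN : 0 ≤ lam N := lam_nonneg w7
  refine ⟨hVN, ?_, ?_, ?_⟩
  · -- the number
    have hT : ∀ {inst : DecidablePred (fun _ : ℕ => True)},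
        @Finset.filter ℕ (fun _ => True) inst (Icc 1 N) = Icc 1 N := by
      intro inst
      ext a
      simp
    have h1 := eqd (ρ P (yy r N)) (ρ_mem P (yy r N)) N v hv1 V η η 1 hV0.le hη0.le hη0.le hw ∅
      (empty_subset _) (by simp; positivity) (fun _ => True) (fun _ _ _ _ _ => Iff.rfl) (by
        rw [hT, Nat.card_Icc, Nat.add_sub_cancel, one_mul, sub_self, abs_zero]
        positivity)
    rw [hT, one_mul] at h1
    refine h1.trans ?_
    rw [hη] at hv_V ⊢
    linarith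
  · -- coalescence
    have h1 := bad_le (ρ P (yy r N)) (ρ_mem P (yy r N)) N v hv1 V η η hV0.le hw
      ((Icc 1 N).filter (fun n : ℕ => (n : ℤ) ∈ E₂)) (filter_subset _ _)
      ((toNat_set N E₂).trans hE₂) ((Icc 1 N).filter (fun y => ¬ Wk s y)) (by
        intro y hy
        rw [mem_filter, mem_Icc] at hy
        refine ⟨hy.1.1, fun hvy h hh => ?_⟩
        rw [mem_Ioc] at hh
        rw [mem_filter, mem_Icc]
        refine ⟨⟨by omega, by omega⟩, ?_⟩
        by_contra hcon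
        obtain ⟨g1, g2⟩ := hnbr (y - h) (by omega) (by omega) hcon
        apply hy.2
        have hh' : (h : ℝ) ≤ 2 * Real.exp (lam N) := by
          have a1 : (h : ℝ) ≤ v := by exact_mod_cast hh.2
          have a2 := Real.exp_pos (lam N)
          linarith
        exact near_Wk hs hlamN hh' (w5 (y - h) g1 (by omega)) g2 (by omega) (by omega)
          (w6 y (g1.trans (Nat.pow_le_pow_left (Nat.sub_le _ _) 2)) hy.1.2))
    refine h1.trans ?_
    rw [hη] at hv_V ⊢
    linarith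
  · intro S hS δ hδ
    have h1 := eqd (ρ P (yy r N)) (ρ_mem P (yy r N)) N v hv1 V η η δ hV0.le hη0.le hη0.le hw
      ((Icc 1 N).filter (fun n : ℕ => (n : ℤ) ∈ E₁)) (filter_subset _ _)
      ((toNat_set N E₁).trans hE₁) (fun y : ℕ => s * (y : ℤ) ∈ S) (by
        intro n hn hnE h hh
        rw [mem_Icc] at hn
        rw [mem_Ioc] at hh
        rw [mem_filter, mem_Icc, not_and] at hnE
        have hLv : v ≤ L := by
          have : (v : ℝ) ≤ L := hv_log2.trans hL1
          exact_mod_cast this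
        have := hloc S hS n (by rw [mem_Icc]; omega) (hnE hn) h (by rw [mem_Icc]; omega)
        unfold PS at this
        rw [Nat.cast_add]
        exact this) (by
        have h2 := hcnt S hS δ hδ N le_rfl
        rw [cnt_cF] at h2
        unfold Pool.Agent.W41.cF at h2
        convert h2 using 4)
    refine h1.trans ?_
    rw [hη] at hv_V ⊢
    linarith

end Pool.Agent.Helper51.WP
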