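import Pool.Agent.Helper51.WP.PatP

/-!
The final counts
-/

set_option autoImplicit false

open Finset Filter Topology

namespace Pool.Agent.Helper51.WP

open Pool.Agent.TH204.CP (Wk)
open Pool.Agent.H499R2.CO (Tz)
open Pool.Agent.H499R2.ND (Mg Td HD IsRp)
open Pool.Agent.TH464.PO (AdP QS Sf)
open Pool.Agent.Helper51.UG (cps)

/-- the elements of `B` such that `s m ∈ S` -/
def In (s : ℤ) (S : Set ℤ) (B : Set ℕ) : Set ℕ := {m | m ∈ B ∧ s * (m : ℤ) ∈ S}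

theorem cl_le (s : ℤ) (S : Set ℤ) (hS : ∀ x, x ∈ S ↔ Tz 1 x ∈ S) (B : Set ℕ) (T : Finset ℤ) (D n : ℕ)
    (hn : s * (n : ℤ) ∈ S) : cps (Cl s B n) T D n ≤ cps (In s S B) T D n := by
  apply cps_mono
  rintro m ⟨h1, _, h2⟩
  exact ⟨h1, (Pool.Agent.H499R2.ND.inv_class (d := 1) (S := S) hS h2).2 hn⟩

/-- everything about the tuples -/
theorem allT {s : ℤ} (hs : s = 1 ∨ s = -1) (K A k : ℕ) (hK : 1 ≤ K) (ε η : ℝ) (hε : 0 < ε)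
    (hε1 : ε < 1) (hη : 0 < η) : ∃ r₀ : ℕ, 1 ≤ r₀ ∧ ∀ r : ℕ, r₀ ≤ r → ∀ᶠ N : ℕ in atTop,
      ∀ P : Finset ℕ, P.card = K → (∀ a ∈ P, a ≤ N ^ A) → AdP P →
      0 < (TT P (yy r N) N).ncard ∧
      ∀ H D : ℕ, 1 ≤ H → (N : ℝ) ^ ε ≤ D → (D : ℝ) * H ≤ (N : ℝ) ^ (1 - ε) →
      ∀ T : Finset ℤ, T.card ≤ k → (∀ t ∈ T, |t| ≤ H) →
      ({n : ℕ | n ∈ TT P (yy r N) N ∧
        (cps (Cl s (TT P (yy r N) N) n) T D n : ℝ) < (D : ℝ) ^ (1 - ε)}.ncard : ℝ) ≤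
        η * (TT P (yy r N) N).ncard ∧
      ∀ S : Set ℤ, (∀ x, x ∈ S ↔ Tz 1 x ∈ S) → ∀ δ : ℝ, HD s S δ → 0 ≤ δ → δ ≤ 1 →
        |({n : ℕ | n ∈ TT P (yy r N) N ∧ s * (n : ℤ) ∈ S ∧
          (D : ℝ) ^ (1 - ε) ≤ (cps (In s S (TT P (yy r N) N)) T D n : ℝ)}.ncard : ℝ) -
          δ * (TT P (yy r N) N).ncard| ≤ η * (TT P (yy r N) N).ncard := by
  classical
  obtain ⟨ζ, hζ0, hζ1, hζη⟩ : ∃ ζ : ℝ, 0 < ζ ∧ ζ ≤ 1 / 2 ∧ ζ ≤ η / 8 :=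
    ⟨min (1 / 2) (η / 8), by positivity, min_le_left _ _, min_le_right _ _⟩
  obtain ⟨r₁, hr₁, h₁⟩ := eqT hs K A hK ζ hζ0
  obtain ⟨r₂, hr₂, h₂⟩ := mainPat hs K A hK k ε ζ hε hε1 hζ0
  refine ⟨max r₁ r₂, hr₁.trans (le_max_left _ _), fun r hr => ?_⟩
  filter_upwards [h₁ r ((le_max_left _ _).trans hr), h₂ r ((le_max_right _ _).trans hr)] with
    N g₁ g₂ P hP hPA hPad
  obtain ⟨hVN, hnum, -, hinv⟩ := g₁ P hP hPA hPad
  obtain ⟨W, hW⟩ : ∃ W : ℝ, W = Vp P (yy r N) * N := ⟨_, rfl⟩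
  rw [← hW] at hVN hnum hinv
  have hfin : (TT P (yy r N) N).Finite := (Set.finite_Icc 0 N).subset fun n hn => ⟨Nat.zero_le _, hn.2.1⟩
  have hTT : ((TT P (yy r N) N).ncard : ℝ) = ∑ y ∈ Icc 1 N, ρ P (yy r N) y := by
    have h1 := card_TT P (yy r N) N (fun _ => True)
    have h2 : {n | n ∈ TT P (yy r N) N ∧ True} = TT P (yy r N) N := by
      ext n
      simp
    rw [h2] at h1
    rw [h1]
    exact filt_sum _ _ _ (fun _ _ => trivial) _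
  rw [← hTT] at hnum
  have hn1 := abs_le.1 hnum
  have hhalf : W / 2 ≤ (TT P (yy r N) N).ncard := by nlinarith
  have hpos : (0 : ℝ) < (TT P (yy r N) N).ncard := by linarith
  refine ⟨by exact_mod_cast hpos, fun H D hH hD1 hD2 T hT hTH => ?_⟩
  have hbad := g₂ P hP hPA hPad H D hH hD1 hD2 T hT hTH
  rw [← hW] at hbad
  have hζW : ζ * W ≤ 2 * ζ * (TT P (yy r N) N).ncard := by nlinarith
  refine ⟨?_, fun S hS δ hδ hδ0 hδ1 => ?_⟩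
  · refine hbad.trans (hζW.trans ?_)
    apply mul_le_mul_of_nonneg_right _ hpos.le
    linarith
  · have hS1 : |({n | n ∈ TT P (yy r N) N ∧ s * (n : ℤ) ∈ S}.ncard : ℝ) - δ * W| ≤ ζ * W := by
      rw [card_TT P (yy r N) N (fun n : ℕ => s * (n : ℤ) ∈ S)]
      exact (le_of_eq (by congr 2)).trans (hinv S hS δ hδ)
    have hsub1 : {n : ℕ | n ∈ TT P (yy r N) N ∧ s * (n : ℤ) ∈ S ∧
        (D : ℝ) ^ (1 - ε) ≤ (cps (In s S (TT P (yy r N) N)) T D n : ℝ)} ⊆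
        {n | n ∈ TT P (yy r N) N ∧ s * (n : ℤ) ∈ S} := fun n hn => ⟨hn.1, hn.2.1⟩
    have hsub2 : {n | n ∈ TT P (yy r N) N ∧ s * (n : ℤ) ∈ S} ⊆
        {n : ℕ | n ∈ TT P (yy r N) N ∧ s * (n : ℤ) ∈ S ∧
          (D : ℝ) ^ (1 - ε) ≤ (cps (In s S (TT P (yy r N) N)) T D n : ℝ)} ∪
        {n : ℕ | n ∈ TT P (yy r N) N ∧
          (cps (Cl s (TT P (yy r N) N) n) T D n : ℝ) < (D : ℝ) ^ (1 - ε)} := by
      rintro n ⟨q1, q2⟩
      by_cases q3 : (cps (Cl s (TT P (yy r N) N) n) T D n : ℝ) < (D : ℝ) ^ (1 - ε)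
      · exact Or.inr ⟨q1, q3⟩
      · refine Or.inl ⟨q1, q2, (not_lt.1 q3).trans ?_⟩
        exact_mod_cast cl_le s S hS (TT P (yy r N) N) T D n q2
    have f1 : {n | n ∈ TT P (yy r N) N ∧ s * (n : ℤ) ∈ S}.Finite := hfin.subset fun n hn => hn.1
    have f2 : ({n : ℕ | n ∈ TT P (yy r N) N ∧ s * (n : ℤ) ∈ S ∧
          (D : ℝ) ^ (1 - ε) ≤ (cps (In s S (TT P (yy r N) N)) T D n : ℝ)} ∪
        {n : ℕ | n ∈ TT P (yy r N) N ∧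
          (cps (Cl s (TT P (yy r N) N) n) T D n : ℝ) < (D : ℝ) ^ (1 - ε)}).Finite := by
      apply hfin.subset
      rintro n (hn | hn)
      · exact hn.1
      · exact hn.1
    have c1 : ({n : ℕ | n ∈ TT P (yy r N) N ∧ s * (n : ℤ) ∈ S ∧
        (D : ℝ) ^ (1 - ε) ≤ (cps (In s S (TT P (yy r N) N)) T D n : ℝ)}.ncard : ℝ) ≤
        ({n | n ∈ TT P (yy r N) N ∧ s * (n : ℤ) ∈ S}.ncard : ℝ) := by
      exact_mod_cast Set.ncard_le_ncard hsub1 f1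
    have c2 : ({n | n ∈ TT P (yy r N) N ∧ s * (n : ℤ) ∈ S}.ncard : ℝ) ≤
        ({n : ℕ | n ∈ TT P (yy r N) N ∧ s * (n : ℤ) ∈ S ∧
          (D : ℝ) ^ (1 - ε) ≤ (cps (In s S (TT P (yy r N) N)) T D n : ℝ)}.ncard : ℝ) +
        ({n : ℕ | n ∈ TT P (yy r N) N ∧
          (cps (Cl s (TT P (yy r N) N) n) T D n : ℝ) < (D : ℝ) ^ (1 - ε)}.ncard : ℝ) := by
      exact_mod_cast (Set.ncard_le_ncard hsub2 f2).trans (Set.ncard_union_le _ _)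
    have a1 := abs_le.1 hS1
    have a2 : |δ * W - δ * (TT P (yy r N) N).ncard| ≤ ζ * W := by
      rw [← mul_sub, abs_mul, abs_of_nonneg hδ0, abs_sub_comm]
      calc δ * |((TT P (yy r N) N).ncard : ℝ) - W| ≤ 1 * (ζ * W) := by gcongr
        _ = ζ * W := one_mul _
    have a3 := abs_le.1 a2
    have a4 : 4 * (ζ * W) ≤ η * (TT P (yy r N) N).ncard := by
      have : 8 * ζ * (TT P (yy r N) N).ncard ≤ η * (TT P (yy r N) N).ncard := by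
        apply mul_le_mul_of_nonneg_right _ hpos.le
        linarith
      linarith
    have a5 : 0 ≤ ζ * W := by positivity
    rw [abs_le]
    constructor <;> linarith

end Pool.Agent.Helper51.WP
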