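import Pool.Agent.Helper51.WP.PatT
import Pool.Graph.R_seed8.TH204.CP.Collatz4

/-!
Finite patterns in the merging classes, for primes
-/

set_option autoImplicit false

open Finset Filter Topology

namespace Pool.Agent.Helper51.WP

open Pool.Agent.TH204.CP (Wk PS QD pv cprQ upperS QD_eq)
open Pool.Agent.H499R2.CO (Tz)
open Pool.Agent.H499R2.ND (Mg Td HD IsRp)
open Pool.Agent.TH464.PO (AdP QS Sf)
open Pool.Agent.H373R2.T7 (nuB pz mem_pz)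
open Pool.Agent.Helper51.UG (cps)

/-- the primes up to `N` -/
def Pr (N : ℕ) : Set ℕ := {p | p.Prime ∧ p ≤ N}

theorem QD_zero (Q : ℤ → Prop) (N : ℕ) :
    QD Q 0 N = ({p : ℕ | p ∈ Pr N ∧ Q (p : ℤ)}.ncard : ℝ) := by
  rw [QD_eq]
  congr 2
  ext p
  unfold Pr
  simp only [Set.mem_ofPred_eq, sub_zero, zero_add]
  constructor
  · rintro ⟨h1, _, h2, h3⟩
    exact ⟨⟨h1, by exact_mod_cast h2⟩, h3⟩
  · rintro ⟨⟨h1, h2⟩, h3⟩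
    exact ⟨h1, by exact_mod_cast h1.pos, by exact_mod_cast h2, h3⟩

theorem adP0 : AdP {0} := by
  intro p hp
  refine ⟨1, fun s hs => ?_⟩
  rw [mem_singleton] at hs
  subst hs
  rw [add_zero]
  intro h
  exact hp.one_lt.ne' (Nat.dvd_one.1 h)

theorem cps_mono {A A' : Set ℕ} (h : A ⊆ A') (T : Finset ℤ) (D n : ℕ) : cps A T D n ≤ cps A' T D n := by
  unfold cps
  apply Set.ncard_le_ncard
  · rintro d ⟨h1, h2, h3⟩
    refine ⟨h1, h2, fun t ht => ?_⟩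
    obtain ⟨m, hm, hm2⟩ := h3 t ht
    exact ⟨m, h hm, hm2⟩
  · exact (Set.finite_Icc 1 D).subset fun d hd => ⟨hd.1, hd.2.1⟩

/-- patterns of primes -/
theorem primePat {s : ℤ} (hs : s = 1 ∨ s = -1) (k : ℕ) (ε δ : ℝ) (hε : 0 < ε)
    (hε1 : ε < 1) (hδ : 0 < δ) : ∀ᶠ N : ℕ in atTop,
      ∀ H D : ℕ, 1 ≤ H → (N : ℝ) ^ ε ≤ D → (D : ℝ) * H ≤ (N : ℝ) ^ (1 - ε) →
      ∀ T : Finset ℤ, T.card ≤ k → (∀ t ∈ T, |t| ≤ H) →
      ({p : ℕ | p ∈ Pr N ∧ (cps (Cl s (Pr N) p) T D p : ℝ) < (D : ℝ) ^ (1 - ε)}.ncard : ℝ) *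
        Real.log N ≤ δ * N := by
  classical
  obtain ⟨F, S, hS, hSF, l, hl, hlδ⟩ := cls hs (δ / 32) (by positivity)
  obtain ⟨N₀, hpat⟩ := patT s F 1 0 k ε (1 / 4) (δ / 16) hε hε1 (by positivity) (by positivity)
  have ht2 : Tendsto (fun N : ℕ => (N : ℝ) ^ (1 / 4 : ℝ)) atTop atTop :=
    (tendsto_rpow_atTop (by positivity)).comp tendsto_natCast_atTop_atTop
  have hsq : Tendsto (fun N : ℕ => Nat.sqrt N) atTop atTop := by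
    apply tendsto_atTop.2
    intro M
    filter_upwards [eventually_ge_atTop (M * M)] with N hN
    exact Nat.le_sqrt.2 hN
  filter_upwards [eventually_ge_atTop N₀, ht2.eventually_ge_atTop 2, upperS hs (δ / 8) (by positivity),
    cprQ hs (δ / 8) (by positivity), hsq.eventually mert_up, ev_pow_log (4 / δ) 1 (1 / 2) (by positivity),
    eventually_ge_atTop 64] with N hN₀ h2 hup hcp hmert hlogN hN64 H D hH hD1 hD2 T hT hTH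
  obtain ⟨y, hy⟩ : ∃ y, y = Nat.sqrt N := ⟨_, rfl⟩
  rw [← hy] at hmert
  have hX : (64 : ℝ) ≤ N := by exact_mod_cast hN64
  have hN0 : (0 : ℝ) < N := by linarith
  have hlog : 0 < Real.log N := Real.log_pos (by linarith)
  have hw1 : (N : ℝ) ^ (1 / 4 : ℝ) * (N : ℝ) ^ (1 / 4 : ℝ) = (N : ℝ) ^ (1 / 2 : ℝ) := by
    rw [← Real.rpow_add hN0]
    norm_num
  have hw2 : (N : ℝ) ^ (1 / 2 : ℝ) * (N : ℝ) ^ (1 / 2 : ℝ) = N := by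
    rw [← Real.rpow_add hN0]
    norm_num
  obtain ⟨w, hw⟩ : ∃ w : ℝ, w = (N : ℝ) ^ (1 / 4 : ℝ) := ⟨_, rfl⟩
  obtain ⟨u, hu⟩ : ∃ u : ℝ, u = (N : ℝ) ^ (1 / 2 : ℝ) := ⟨_, rfl⟩
  rw [← hw, ← hu] at hw1
  rw [← hu] at hw2 hlogN
  rw [← hw] at h2
  have hu0 : 0 ≤ u := by rw [hu]; positivity
  have hyu : (y : ℝ) ≤ u := by
    have h3 : y * y ≤ N := by rw [hy]; exact Nat.sqrt_le N
    have h4 : (y : ℝ) * y ≤ u * u := by rw [hw2]; exact_mod_cast h3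
    nlinarith
  have hyu2 : u < y + 1 := by
    have h3 : N < (y + 1) * (y + 1) := by rw [hy]; exact Nat.lt_succ_sqrt N
    have h4 : u * u < ((y : ℝ) + 1) * (y + 1) := by rw [hw2]; exact_mod_cast h3
    nlinarith
  have hwy : w ≤ y := by nlinarith
  have hyN : y ≤ N := by rw [hy]; exact Nat.sqrt_le_self N
  have hy8 : 8 ≤ y := by rw [hy]; exact Nat.le_sqrt.2 (by omega)
  -- the three parts
  have c1 : ({p : ℕ | p ∈ Pr N ∧ ¬ Wk s ((p : ℤ)).toNat}.ncard : ℝ) * Real.log N ≤ δ / 8 * N := by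
    have := hcp 0 (by simp)
    rwa [QD_zero] at this
  have c2 : ({p : ℕ | p ∈ Pr N ∧ s * (p : ℤ) ∈ S}.ncard : ℝ) * Real.log N ≤ δ / 4 * N := by
    have := hup S hS l hl 0 (by simp)
    rw [QD_zero] at this
    refine this.trans ?_
    gcongr
    linarith
  have hVy : Vp {0} y ≤ 1 / Real.log y := by
    refine le_trans (le_of_eq ?_) hmert
    unfold Vp Pool.Agent.W123.RP.Vq
    apply prod_congr rfl
    intro p hp
    rw [nuB_one 0 p (mem_pz.1 hp).2, Nat.cast_one]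
  have hlogy : Real.log N ≤ 3 * Real.log y := by
    have h3 : (N : ℝ) ≤ (y : ℝ) ^ 3 := by
      have h4 : N < (y + 1) * (y + 1) := by rw [hy]; exact Nat.lt_succ_sqrt N
      have h5 : (y + 1) * (y + 1) ≤ y ^ 3 := by
        have : y ^ 3 = y * (y * y) := by ring
        nlinarith
      exact_mod_cast (h4.le.trans h5)
    have h4 := Real.log_le_log hN0 h3
    rw [Real.log_pow] at h4
    exact_mod_cast h4
  have hlogy0 : 0 < Real.log y := by linarith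
  have c3 := hpat N H D y hN₀ (by rw [← hw]; exact hwy) hyN hH hD1 hD2 {0} rfl (by simp)
    {p | p ∈ Pr N ∧ y < p ∧ Wk s p} (by
      rintro p ⟨⟨h3, h4⟩, h5, -⟩
      refine ⟨h3.pos, h4, fun q hq hqp => ?_⟩
      obtain ⟨a, ha, hd⟩ := hqp
      rw [mem_singleton] at ha
      subst ha
      rw [add_zero] at hd
      have hq' := mem_pz.1 hq
      have := (Nat.prime_dvd_prime_iff_eq hq'.2 h3).1 hd
      omega) T hT hTH
  have c3' : ({n : ℕ | n ∈ {p | p ∈ Pr N ∧ y < p ∧ Wk s p} ∧ (∃ a ∈ F, s * (n : ℤ) ∈ Mg (Td 1) a) ∧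
        (cps {m | m ∈ {p | p ∈ Pr N ∧ y < p ∧ Wk s p} ∧ s * (m : ℤ) ∈ Mg (Td 1) (s * n)} T D n : ℝ) <
          (D : ℝ) ^ (1 - ε)}.ncard : ℝ) * Real.log N ≤ δ / 4 * N := by
    calc _ ≤ (δ / 16 * (Vp {0} y * N)) * Real.log N := by gcongr
      _ ≤ (δ / 16 * (1 / Real.log y * N)) * (3 * Real.log y) := by gcongr
      _ = 3 * δ / 16 * N := by field_simp
      _ ≤ δ / 4 * N := by nlinarith
  have c4 : ((Icc 1 y).card : ℝ) * Real.log N ≤ δ / 4 * N := by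
    rw [Nat.card_Icc, Nat.add_sub_cancel]
    rw [pow_one] at hlogN
    have h3 : Real.log N ≤ δ / 4 * u := by
      calc Real.log N = δ / 4 * (4 / δ * Real.log N) := by field_simp
        _ ≤ δ / 4 * u := by gcongr
    calc (y : ℝ) * Real.log N ≤ u * (δ / 4 * u) := by gcongr
      _ = δ / 4 * (u * u) := by ring
      _ = δ / 4 * N := by rw [hw2]
  have hsub : {p : ℕ | p ∈ Pr N ∧ (cps (Cl s (Pr N) p) T D p : ℝ) < (D : ℝ) ^ (1 - ε)} ⊆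
      (({p : ℕ | p ∈ Pr N ∧ ¬ Wk s ((p : ℤ)).toNat} ∪ {p : ℕ | p ∈ Pr N ∧ s * (p : ℤ) ∈ S}) ∪
      {n : ℕ | n ∈ {p | p ∈ Pr N ∧ y < p ∧ Wk s p} ∧ (∃ a ∈ F, s * (n : ℤ) ∈ Mg (Td 1) a) ∧
        (cps {m | m ∈ {p | p ∈ Pr N ∧ y < p ∧ Wk s p} ∧ s * (m : ℤ) ∈ Mg (Td 1) (s * n)} T D n : ℝ) <
          (D : ℝ) ^ (1 - ε)}) ∪ ((Icc 1 y : Finset ℕ) : Set ℕ) := by
    rintro p ⟨g1, g2⟩
    by_cases w0 : p ≤ y
    · refine Or.inr ?_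
      rw [mem_coe, mem_Icc]
      exact ⟨g1.1.pos, w0⟩
    by_cases w1 : Wk s p
    · by_cases w2 : s * (p : ℤ) ∈ S
      · exact Or.inl (Or.inl (Or.inr ⟨g1, w2⟩))
      · refine Or.inl (Or.inr ⟨⟨g1, by omega, w1⟩, hSF _ w2, ?_⟩)
        refine lt_of_le_of_lt ?_ g2
        have := cps_mono (A := {m | m ∈ {p | p ∈ Pr N ∧ y < p ∧ Wk s p} ∧
          s * (m : ℤ) ∈ Mg (Td 1) (s * p)}) (A' := Cl s (Pr N) p) (by
            rintro m ⟨⟨q1, _, q2⟩, q3⟩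
            exact ⟨q1, q2, q3⟩) T D p
        exact_mod_cast this
    · refine Or.inl (Or.inl (Or.inl ⟨g1, ?_⟩))
      rw [Int.toNat_natCast]
      exact w1
  have hfP : (Pr N).Finite := (Set.finite_Icc 0 N).subset fun n hn => ⟨Nat.zero_le _, hn.2⟩
  have hfin : ((({p : ℕ | p ∈ Pr N ∧ ¬ Wk s ((p : ℤ)).toNat} ∪ {p : ℕ | p ∈ Pr N ∧ s * (p : ℤ) ∈ S}) ∪
      {n : ℕ | n ∈ {p | p ∈ Pr N ∧ y < p ∧ Wk s p} ∧ (∃ a ∈ F, s * (n : ℤ) ∈ Mg (Td 1) a) ∧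
        (cps {m | m ∈ {p | p ∈ Pr N ∧ y < p ∧ Wk s p} ∧ s * (m : ℤ) ∈ Mg (Td 1) (s * n)} T D n : ℝ) <
          (D : ℝ) ^ (1 - ε)}) ∪ ((Icc 1 y : Finset ℕ) : Set ℕ)).Finite := by
    refine Set.Finite.union (hfP.subset ?_) (Finset.finite_toSet _)
    rintro n ((hn | hn) | hn)
    · exact hn.1
    · exact hn.1
    · exact hn.1.1
  have q1 := Set.ncard_le_ncard hsub hfin
  have q2 := Set.ncard_union_le ((({p : ℕ | p ∈ Pr N ∧ ¬ Wk s ((p : ℤ)).toNat} ∪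
      {p : ℕ | p ∈ Pr N ∧ s * (p : ℤ) ∈ S}) ∪
      {n : ℕ | n ∈ {p | p ∈ Pr N ∧ y < p ∧ Wk s p} ∧ (∃ a ∈ F, s * (n : ℤ) ∈ Mg (Td 1) a) ∧
        (cps {m | m ∈ {p | p ∈ Pr N ∧ y < p ∧ Wk s p} ∧ s * (m : ℤ) ∈ Mg (Td 1) (s * n)} T D n : ℝ) <
          (D : ℝ) ^ (1 - ε)})) ((Icc 1 y : Finset ℕ) : Set ℕ)
  have q3 := Set.ncard_union_le ({p : ℕ | p ∈ Pr N ∧ ¬ Wk s ((p : ℤ)).toNat} ∪
      {p : ℕ | p ∈ Pr N ∧ s * (p : ℤ) ∈ S})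
      {n : ℕ | n ∈ {p | p ∈ Pr N ∧ y < p ∧ Wk s p} ∧ (∃ a ∈ F, s * (n : ℤ) ∈ Mg (Td 1) a) ∧
        (cps {m | m ∈ {p | p ∈ Pr N ∧ y < p ∧ Wk s p} ∧ s * (m : ℤ) ∈ Mg (Td 1) (s * n)} T D n : ℝ) <
          (D : ℝ) ^ (1 - ε)}
  have q4 := Set.ncard_union_le {p : ℕ | p ∈ Pr N ∧ ¬ Wk s ((p : ℤ)).toNat}
      {p : ℕ | p ∈ Pr N ∧ s * (p : ℤ) ∈ S}
  rw [Set.ncard_coe_finset] at q2
  have q5 : ({p : ℕ | p ∈ Pr N ∧ (cps (Cl s (Pr N) p) T D p : ℝ) < (D : ℝ) ^ (1 - ε)}.ncard : ℝ) ≤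
      ({p : ℕ | p ∈ Pr N ∧ ¬ Wk s ((p : ℤ)).toNat}.ncard : ℝ) +
      ({p : ℕ | p ∈ Pr N ∧ s * (p : ℤ) ∈ S}.ncard : ℝ) +
      ({n : ℕ | n ∈ {p | p ∈ Pr N ∧ y < p ∧ Wk s p} ∧ (∃ a ∈ F, s * (n : ℤ) ∈ Mg (Td 1) a) ∧
        (cps {m | m ∈ {p | p ∈ Pr N ∧ y < p ∧ Wk s p} ∧ s * (m : ℤ) ∈ Mg (Td 1) (s * n)} T D n : ℝ) <
          (D : ℝ) ^ (1 - ε)}.ncard : ℝ) + ((Icc 1 y).card : ℝ) := by
    have := q1.trans (q2.trans (Nat.add_le_add_right (q3.trans (Nat.add_le_add_right q4 _)) _))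
    exact_mod_cast this
  calc _ ≤ _ := mul_le_mul_of_nonneg_right q5 hlog.le
    _ ≤ δ * N := by
        have e1 : δ / 8 * (N : ℝ) + δ / 4 * N + δ / 4 * N + δ / 4 * N ≤ δ * N := by nlinarith
        nlinarith

end Pool.Agent.Helper51.WP
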