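import Pool.Agent.Helper51.WP.EquiT

/-!
Finite patterns in the merging classes, for tuples and for primes
-/

set_option autoImplicit false

open Finset Filter Topology

namespace Pool.Agent.Helper51.WP

open Pool.Agent.TH204.CP (Wk PS QD pv cpr upperS ind)
open Pool.Agent.H499R2.CO (Tz)
open Pool.Agent.H499R2.ND (Mg Td HD IsRp)
open Pool.Agent.TH464.PO (AdP QS Sf)
open Pool.Agent.H373R2.T7 (nuB pz mem_pz)
open Pool.Agent.Helper51.UG (VV FZ FormsOK ptSetU cps FZ_dvd)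

/-- the constants of the forms `n + a`, `a ∈ P` -/
noncomputable def bet (P : Finset ℕ) (K : ℕ) (h : P.card = K) (i : Fin K) : ℤ :=
  ((P.orderEmbOfFin h i : ℕ) : ℤ)

theorem bet_mem (P : Finset ℕ) (K : ℕ) (h : P.card = K) (a : ℕ) :
    a ∈ P ↔ ∃ i, bet P K h i = a := by
  have h1 := Finset.range_orderEmbOfFin P h
  rw [← Finset.mem_coe, ← h1, Set.mem_range]
  unfold bet
  refine exists_congr fun i => ?_
  exact ⟨fun h => by rw [h], fun h => by exact_mod_cast h⟩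

theorem VV_bet (P : Finset ℕ) (K : ℕ) (h : P.card = K) (y : ℕ) :
    VV (FZ (fun _ : Fin K => (1 : ℤ)) (bet P K h)) y = Vp P y := by
  classical
  unfold VV Vp Pool.Agent.W123.RP.Vq pz
  apply prod_congr rfl
  intro p hp
  rw [mem_filter] at hp
  have h1 : Pool.Agent.Y677.RSZ.rt (FZ (fun _ : Fin K => (1 : ℤ)) (bet P K h)) p = nuB (QS P) p := by
    unfold Pool.Agent.Y677.RSZ.rt nuB
    congr 1
    ext a
    rw [mem_filter, mem_filter, FZ_dvd _ _ hp.2]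
    refine and_congr_right fun _ => ?_
    unfold QS
    constructor
    · rintro ⟨i, hi⟩
      refine ⟨P.orderEmbOfFin h i, Finset.orderEmbOfFin_mem P h i, ?_⟩
      rw [one_mul] at hi
      unfold bet at hi
      exact_mod_cast hi
    · rintro ⟨b, hb, hd⟩
      obtain ⟨i, hi⟩ := (bet_mem P K h b).1 hb
      refine ⟨i, ?_⟩
      rw [one_mul, hi]
      exact_mod_cast hd
  rw [h1]

/-- finitely many merging classes contain almost all integers -/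
theorem filt_sum {α : Type*} (F : Finset α) (P : α → Prop) (inst : DecidablePred P)
    (h : ∀ a ∈ F, P a) (f : α → ℝ) : ∑ a ∈ @Finset.filter α P inst F, f a = ∑ a ∈ F, f a := by
  rw [filter_true_of_mem h]

theorem sfc {α : Type*} (s : Finset α) (Q : α → Prop) (i1 i2 : DecidablePred Q) (f : α → ℝ) :
    ∑ a ∈ @Finset.filter α Q i1 s, f a = ∑ a ∈ @Finset.filter α Q i2 s, f a := by
  have : i1 = i2 := Subsingleton.elim _ _
  rw [this]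

theorem cls {s : ℤ} (hs : s = 1 ∨ s = -1) (η : ℝ) (hη : 0 < η) : ∃ F : Finset ℤ, ∃ S : Set ℤ,
    (∀ x, x ∈ S ↔ Tz 1 x ∈ S) ∧ (∀ x : ℤ, x ∉ S → ∃ a ∈ F, x ∈ Mg (Td 1) a) ∧
    ∃ l : ℝ, HD s S l ∧ l ≤ η := by
  classical
  obtain ⟨δc, h1, -, h3, h4⟩ := Pool.Agent.H499R2.ND.structure_d (d := 1) odd_one (by norm_num) hs
  obtain ⟨F, hF⟩ : ∃ F : Finset {a : ℤ // IsRp 1 s a}, 1 - η < ∑ a ∈ F, δc a :=
    (h4.eventually (lt_mem_nhds (show 1 - η < 1 by linarith))).exists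
  have hU : Pool.Agent.H499R2.ND.Inv 1 {x : ℤ | ∃ a ∈ F, x ∈ Mg (Td 1) (a : ℤ)} := by
    intro x
    simp only [Set.mem_ofPred_eq]
    exact exists_congr fun a => and_congr_right fun _ => Pool.Agent.H499R2.ND.Mg_step _ _ _
  have hSc : Pool.Agent.H499R2.ND.Inv 1 {x : ℤ | ∃ a ∈ F, x ∈ Mg (Td 1) (a : ℤ)}ᶜ :=
    fun x => not_congr (hU x)
  obtain ⟨l, -, -, hl⟩ := Pool.Agent.H499R2.ND.dens_side (d := 1) odd_one (by norm_num) hs hSc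
  refine ⟨F.image (fun a : {a : ℤ // IsRp 1 s a} => (a : ℤ)),
    {x : ℤ | ∃ a ∈ F, x ∈ Mg (Td 1) (a : ℤ)}ᶜ, hSc, ?_, l, hl, ?_⟩
  · intro x hx
    rw [Set.mem_compl_iff, not_not] at hx
    obtain ⟨a, ha, hxa⟩ := hx
    exact ⟨a, mem_image_of_mem _ ha, hxa⟩
  · obtain ⟨u, -, -, hu⟩ := Pool.Agent.H499R2.ND.dens_side (d := 1) odd_one (by norm_num) hs hU
    have hsum := Pool.Agent.H499R2.ND.HD_compl hu hl
    have t1 : Tendsto (fun N : ℕ => ∑ a ∈ F, (Pool.Agent.W41.cF s (Mg (Td 1) (a : ℤ)) N : ℝ) / N) atTop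
        (𝓝 (∑ a ∈ F, δc a)) :=
      tendsto_finsetSum _ fun a _ => Pool.Agent.W41.cF_tendsto hs (h1 a).2
    have t2 : ∑ a ∈ F, δc a ≤ u := by
      refine le_of_tendsto_of_tendsto t1 (Pool.Agent.W41.cF_tendsto hs hu) (Eventually.of_forall fun N => ?_)
      simp only
      rw [← sum_div]
      apply div_le_div_of_nonneg_right _ (Nat.cast_nonneg _)
      have h5 := Pool.Agent.W41.cF_classes_R hs hU F N
      refine le_trans (le_of_eq ?_) h5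
      exact (filt_sum F _ _ (fun a ha => ⟨a, ha, Pool.Agent.H499R2.ND.Mg_self _ _⟩) _).symm
    linarith

/-- patterns, in finitely many classes -/
theorem patT (s : ℤ) (F : Finset ℤ) (K A k : ℕ) (ε θ δ : ℝ) (hε : 0 < ε) (hε1 : ε < 1) (hθ : 0 < θ)
    (hδ : 0 < δ) : ∃ N₀ : ℕ, ∀ N H D y : ℕ, N₀ ≤ N → (N : ℝ) ^ θ ≤ y → y ≤ N → 1 ≤ H →
      (N : ℝ) ^ ε ≤ D → (D : ℝ) * H ≤ (N : ℝ) ^ (1 - ε) → ∀ P : Finset ℕ, P.card = K →
      (∀ a ∈ P, a ≤ N ^ A) → ∀ B : Set ℕ,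
      (∀ n ∈ B, 0 < n ∧ n ≤ N ∧ Sf (QS P) y n) →
      ∀ T : Finset ℤ, T.card ≤ k → (∀ t ∈ T, |t| ≤ H) →
      ({n : ℕ | n ∈ B ∧ (∃ a ∈ F, s * (n : ℤ) ∈ Mg (Td 1) a) ∧
        (cps {m | m ∈ B ∧ s * (m : ℤ) ∈ Mg (Td 1) (s * n)} T D n : ℝ) < (D : ℝ) ^ (1 - ε)}.ncard : ℝ) ≤
        δ * (Vp P y * N) := by
  classical
  have hF0 : (0 : ℝ) < F.card + 1 := by positivity
  obtain ⟨X₀, h⟩ := ptSetU K 1 (A + 1) k ε θ (δ / (F.card + 1)) hε hε1 hθ (by positivity)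
  refine ⟨max X₀ 1, fun N H D y hN hy hyN hH hD1 hD2 P hP hPA B hB T hT hTH => ?_⟩
  have hN1 : 1 ≤ N := (le_max_right _ _).trans hN
  have hform : FormsOK 1 (A + 1) N 0 (fun _ : Fin K => (1 : ℤ)) (bet P K hP) := by
    refine ⟨fun i => ⟨one_ne_zero, by simp, ?_⟩, fun i j hij => ?_, fun i n hn _ => ?_⟩
    · have h1 := hPA _ (Finset.orderEmbOfFin_mem P hP i)
      have h2 : N ^ A ≤ N ^ (A + 1) := Nat.pow_le_pow_right hN1 (by omega)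
      unfold bet
      rw [abs_of_nonneg (by positivity)]
      exact_mod_cast h1.trans h2
    · rw [one_mul, one_mul]
      unfold bet
      intro hcon
      apply hij
      have h1 : (P.orderEmbOfFin hP i : ℕ) = P.orderEmbOfFin hP j := by exact_mod_cast hcon
      exact (P.orderEmbOfFin hP).injective h1
    · rw [one_mul]
      unfold bet
      have : (0 : ℤ) < n := by exact_mod_cast hn
      positivity
  have hsub : {n : ℕ | n ∈ B ∧ (∃ a ∈ F, s * (n : ℤ) ∈ Mg (Td 1) a) ∧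
        (cps {m | m ∈ B ∧ s * (m : ℤ) ∈ Mg (Td 1) (s * n)} T D n : ℝ) < (D : ℝ) ^ (1 - ε)} ⊆
      ⋃ a ∈ F, {n : ℕ | n ∈ {m | m ∈ B ∧ s * (m : ℤ) ∈ Mg (Td 1) a} ∧
        (cps {m | m ∈ B ∧ s * (m : ℤ) ∈ Mg (Td 1) a} T D n : ℝ) < (D : ℝ) ^ (1 - ε)} := by
    rintro n ⟨h1, ⟨a, ha, hna⟩, h2⟩
    rw [Set.mem_iUnion₂]
    refine ⟨a, ha, ⟨h1, hna⟩, ?_⟩
    have : {m | m ∈ B ∧ s * (m : ℤ) ∈ Mg (Td 1) a} = {m | m ∈ B ∧ s * (m : ℤ) ∈ Mg (Td 1) (s * n)} := by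
      ext m
      simp only [Set.mem_ofPred_eq]
      refine and_congr_right fun _ => ⟨fun h => ?_, fun h => ?_⟩
      · exact Pool.Agent.H499R2.ND.Mg_trans h (Pool.Agent.H499R2.ND.Mg_symm hna)
      · exact Pool.Agent.H499R2.ND.Mg_trans h hna
    rw [this]
    exact h2
  have hfin : (⋃ a ∈ F, {n : ℕ | n ∈ {m | m ∈ B ∧ s * (m : ℤ) ∈ Mg (Td 1) a} ∧
        (cps {m | m ∈ B ∧ s * (m : ℤ) ∈ Mg (Td 1) a} T D n : ℝ) < (D : ℝ) ^ (1 - ε)}).Finite := by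
    apply (Set.finite_Icc 0 N).subset
    intro n hn
    rw [Set.mem_iUnion₂] at hn
    obtain ⟨a, _, hn⟩ := hn
    have := hB n hn.1.1
    exact ⟨Nat.zero_le _, this.2.1⟩
  have h1 : ({n : ℕ | n ∈ B ∧ (∃ a ∈ F, s * (n : ℤ) ∈ Mg (Td 1) a) ∧
        (cps {m | m ∈ B ∧ s * (m : ℤ) ∈ Mg (Td 1) (s * n)} T D n : ℝ) < (D : ℝ) ^ (1 - ε)}.ncard : ℝ) ≤
      ∑ a ∈ F, ({n : ℕ | n ∈ {m | m ∈ B ∧ s * (m : ℤ) ∈ Mg (Td 1) a} ∧
        (cps {m | m ∈ B ∧ s * (m : ℤ) ∈ Mg (Td 1) a} T D n : ℝ) < (D : ℝ) ^ (1 - ε)}.ncard : ℝ) := by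
    exact_mod_cast (Set.ncard_le_ncard hsub hfin).trans (Finset.set_ncard_biUnion_le _ _)
  refine h1.trans ?_
  have hV0 : 0 ≤ Vp P y := by
    rw [← VV_bet P K hP]
    exact Pool.Agent.Helper51.UG.VV_nn _ y
  have hNV : 0 ≤ Vp P y * (N : ℝ) := mul_nonneg hV0 (Nat.cast_nonneg _)
  calc _ ≤ ∑ _a ∈ F, δ / (F.card + 1) * (Vp P y * N) := by
        apply sum_le_sum
        intro a _
        have h2 := h N H D 0 y ((le_max_left _ _).trans hN) (Nat.zero_le _) hy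
          (hyN.trans (Nat.le_self_pow (by omega) N)) hH hD1 hD2 _ _ hform
          {m | m ∈ B ∧ s * (m : ℤ) ∈ Mg (Td 1) a} (by
            rintro n ⟨hn, _⟩
            have hh := hB n hn
            refine ⟨hh.1, by omega, fun i q hq hqn => ?_⟩
            rw [one_mul] at hqn
            unfold bet at hqn
            by_contra hcon
            apply hh.2.2 q (mem_pz.2 ⟨by omega, hq⟩)
            exact ⟨_, Finset.orderEmbOfFin_mem P hP i, by exact_mod_cast hqn⟩) T hT hTH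
        rw [VV_bet P K hP] at h2
        calc _ ≤ _ := h2
          _ = _ := by ring
    _ = F.card * (δ / (F.card + 1) * (Vp P y * N)) := by rw [sum_const, nsmul_eq_mul]
    _ = (F.card / (F.card + 1)) * (δ * (Vp P y * N)) := by ring
    _ ≤ 1 * (δ * (Vp P y * N)) := by
        apply mul_le_mul_of_nonneg_right _ (by positivity)
        rw [div_le_one hF0]
        linarith
    _ = _ := one_mul _

/-- the tuples -/
def TT (P : Finset ℕ) (y N : ℕ) : Set ℕ := {n | 0 < n ∧ n ≤ N ∧ Sf (QS P) y n}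

open Classical in
theorem card_TT (P : Finset ℕ) (y N : ℕ) (Q : ℕ → Prop) :
    ({n | n ∈ TT P y N ∧ Q n}.ncard : ℝ) = ∑ n ∈ (Icc 1 N).filter Q, ρ P y n := by
  unfold ρ
  rw [← sum_filter, sum_const, nsmul_eq_mul, mul_one, filter_filter, ← Set.ncard_coe_finset]
  congr 2
  ext n
  rw [mem_coe, mem_filter, mem_Icc]
  unfold TT
  simp only [Set.mem_ofPred_eq]
  constructor
  · rintro ⟨⟨h1, h2, h3⟩, h4⟩
    exact ⟨⟨by omega, h2⟩, h4, h3⟩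
  · rintro ⟨⟨h1, h2⟩, h3, h4⟩
    exact ⟨⟨by omega, h2, h4⟩, h3⟩

/-- the elements of `B` whose trajectories have merged with the one of `s n` -/
def Cl (s : ℤ) (B : Set ℕ) (n : ℕ) : Set ℕ := {m | m ∈ B ∧ Wk s m ∧ s * (m : ℤ) ∈ Mg (Td 1) (s * n)}

/-- patterns of tuples -/
theorem mainPat {s : ℤ} (hs : s = 1 ∨ s = -1) (K A : ℕ) (hK : 1 ≤ K) (k : ℕ) (ε δ : ℝ) (hε : 0 < ε)
    (hε1 : ε < 1) (hδ : 0 < δ) : ∃ r₀ : ℕ, 1 ≤ r₀ ∧ ∀ r : ℕ, r₀ ≤ r → ∀ᶠ N : ℕ in atTop,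
      ∀ P : Finset ℕ, P.card = K → (∀ a ∈ P, a ≤ N ^ A) → AdP P →
      ∀ H D : ℕ, 1 ≤ H → (N : ℝ) ^ ε ≤ D → (D : ℝ) * H ≤ (N : ℝ) ^ (1 - ε) →
      ∀ T : Finset ℤ, T.card ≤ k → (∀ t ∈ T, |t| ≤ H) →
      ({n : ℕ | n ∈ TT P (yy r N) N ∧
        (cps (Cl s (TT P (yy r N) N) n) T D n : ℝ) < (D : ℝ) ^ (1 - ε)}.ncard : ℝ) ≤
        δ * (Vp P (yy r N) * N) := by
  classical
  obtain ⟨F, S, hS, hSF, l, hl, hlδ⟩ := cls hs (δ / 4) (by positivity)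
  obtain ⟨r₀, hr₀, h⟩ := eqT hs K A hK (δ / 4) (by positivity)
  refine ⟨r₀, hr₀, fun r hr => ?_⟩
  have hr1 : 1 ≤ r := hr₀.trans hr
  have hr0 : (0 : ℝ) < r := by exact_mod_cast hr1
  obtain ⟨N₀, hpat⟩ := patT s F K A k ε (1 / (2 * r)) (δ / 4) hε hε1 (by positivity) (by positivity)
  have ht2 : Tendsto (fun N : ℕ => (N : ℝ) ^ (1 / (2 * r) : ℝ)) atTop atTop :=
    (tendsto_rpow_atTop (by positivity)).comp tendsto_natCast_atTop_atTop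
  filter_upwards [h r hr, eventually_ge_atTop N₀, eventually_ge_atTop 1, ht2.eventually_ge_atTop 2] with
    N h1 hN₀ hN1 h2 P hP hPA hPad H D hH hD1 hD2 T hT hTH
  obtain ⟨hVN, hnum, hWk, hinv⟩ := h1 P hP hPA hPad
  have hX : (1 : ℝ) ≤ N := by exact_mod_cast hN1
  have hy : (N : ℝ) ^ (1 / (2 * r) : ℝ) ≤ (yy r N : ℕ) := by
    unfold yy
    have e1 : (N : ℝ) ^ (1 / (r : ℝ)) = (N : ℝ) ^ (1 / (2 * r) : ℝ) * (N : ℝ) ^ (1 / (2 * r) : ℝ) := by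
      rw [← Real.rpow_add (by linarith)]
      congr 1
      field_simp
      norm_num
    have e2 : (N : ℝ) ^ (1 / (2 * r) : ℝ) * (N : ℝ) ^ (1 / (2 * r) : ℝ) <
        ⌊(N : ℝ) ^ (1 / (r : ℝ))⌋₊ + 1 := by
      rw [← e1]
      exact Nat.lt_floor_add_one _
    nlinarith
  have hyN : yy r N ≤ N := y_le r N hr1 hN1
  have hp := hpat N H D (yy r N) hN₀ hy hyN hH hD1 hD2 P hP hPA {n | n ∈ TT P (yy r N) N ∧ Wk s n}
    (fun n hn => hn.1) T hT hTH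
  have c1 : ({n | n ∈ TT P (yy r N) N ∧ ¬ Wk s n}.ncard : ℝ) ≤ δ / 4 * (Vp P (yy r N) * N) := by
    rw [card_TT P (yy r N) N (fun n => ¬ Wk s n)]
    exact (sfc _ _ _ _ _).le.trans hWk
  have c2 : |({n | n ∈ TT P (yy r N) N ∧ s * (n : ℤ) ∈ S}.ncard : ℝ) - l * (Vp P (yy r N) * N)| ≤
      δ / 4 * (Vp P (yy r N) * N) := by
    rw [card_TT P (yy r N) N (fun n : ℕ => s * (n : ℤ) ∈ S)]
    convert hinv S hS l hl using 3
  have hfin : (TT P (yy r N) N).Finite := (Set.finite_Icc 0 N).subset fun n hn => ⟨Nat.zero_le _, hn.2.1⟩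
  have hsub : {n : ℕ | n ∈ TT P (yy r N) N ∧
        (cps (Cl s (TT P (yy r N) N) n) T D n : ℝ) < (D : ℝ) ^ (1 - ε)} ⊆
      ({n | n ∈ TT P (yy r N) N ∧ ¬ Wk s n} ∪ {n | n ∈ TT P (yy r N) N ∧ s * (n : ℤ) ∈ S}) ∪
      {n : ℕ | n ∈ {n | n ∈ TT P (yy r N) N ∧ Wk s n} ∧ (∃ a ∈ F, s * (n : ℤ) ∈ Mg (Td 1) a) ∧
        (cps {m | m ∈ {n | n ∈ TT P (yy r N) N ∧ Wk s n} ∧ s * (m : ℤ) ∈ Mg (Td 1) (s * n)} T D n : ℝ) <
          (D : ℝ) ^ (1 - ε)} := by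
    rintro n ⟨g1, g2⟩
    by_cases w1 : Wk s n
    · by_cases w2 : s * (n : ℤ) ∈ S
      · exact Or.inl (Or.inr ⟨g1, w2⟩)
      · refine Or.inr ⟨⟨g1, w1⟩, hSF _ w2, ?_⟩
        have e : {m | m ∈ {n | n ∈ TT P (yy r N) N ∧ Wk s n} ∧ s * (m : ℤ) ∈ Mg (Td 1) (s * n)} =
            Cl s (TT P (yy r N) N) n := by
          ext m
          unfold Cl
          simp only [Set.mem_ofPred_eq, and_assoc]
        rw [e]
        exact g2
    · exact Or.inl (Or.inl ⟨g1, w1⟩)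
  have hfin2 : (({n | n ∈ TT P (yy r N) N ∧ ¬ Wk s n} ∪ {n | n ∈ TT P (yy r N) N ∧ s * (n : ℤ) ∈ S}) ∪
      {n : ℕ | n ∈ {n | n ∈ TT P (yy r N) N ∧ Wk s n} ∧ (∃ a ∈ F, s * (n : ℤ) ∈ Mg (Td 1) a) ∧
        (cps {m | m ∈ {n | n ∈ TT P (yy r N) N ∧ Wk s n} ∧ s * (m : ℤ) ∈ Mg (Td 1) (s * n)} T D n : ℝ) <
          (D : ℝ) ^ (1 - ε)}).Finite := by
    apply hfin.subset
    rintro n ((hn | hn) | hn)
    · exact hn.1
    · exact hn.1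
    · exact hn.1.1
  have hcard : ({n : ℕ | n ∈ TT P (yy r N) N ∧
        (cps (Cl s (TT P (yy r N) N) n) T D n : ℝ) < (D : ℝ) ^ (1 - ε)}.ncard : ℝ) ≤
      ({n | n ∈ TT P (yy r N) N ∧ ¬ Wk s n}.ncard : ℝ) +
      ({n | n ∈ TT P (yy r N) N ∧ s * (n : ℤ) ∈ S}.ncard : ℝ) +
      ({n : ℕ | n ∈ {n | n ∈ TT P (yy r N) N ∧ Wk s n} ∧ (∃ a ∈ F, s * (n : ℤ) ∈ Mg (Td 1) a) ∧
        (cps {m | m ∈ {n | n ∈ TT P (yy r N) N ∧ Wk s n} ∧ s * (m : ℤ) ∈ Mg (Td 1) (s * n)} T D n : ℝ) <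
          (D : ℝ) ^ (1 - ε)}.ncard : ℝ) := by
    have q1 := Set.ncard_le_ncard hsub hfin2
    have q2 := Set.ncard_union_le ({n | n ∈ TT P (yy r N) N ∧ ¬ Wk s n} ∪
      {n | n ∈ TT P (yy r N) N ∧ s * (n : ℤ) ∈ S})
      {n : ℕ | n ∈ {n | n ∈ TT P (yy r N) N ∧ Wk s n} ∧ (∃ a ∈ F, s * (n : ℤ) ∈ Mg (Td 1) a) ∧
        (cps {m | m ∈ {n | n ∈ TT P (yy r N) N ∧ Wk s n} ∧ s * (m : ℤ) ∈ Mg (Td 1) (s * n)} T D n : ℝ) <
          (D : ℝ) ^ (1 - ε)}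
    have q3 := Set.ncard_union_le {n | n ∈ TT P (yy r N) N ∧ ¬ Wk s n}
      {n | n ∈ TT P (yy r N) N ∧ s * (n : ℤ) ∈ S}
    exact_mod_cast q1.trans (q2.trans (Nat.add_le_add_right q3 _))
  have hi := (abs_le.1 c2).2
  have hlV : l * (Vp P (yy r N) * N) ≤ δ / 4 * (Vp P (yy r N) * N) := by gcongr
  linarith

end Pool.Agent.Helper51.WP
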