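import Pool.Graph.R_pool_sql_team_seeded_ab47071d.TH464.PO.MomLaw
import Pool.Graph.R_seed8.H305R2.MertensE
import Pool.Agent.Helper51.UG.ManyU
import Pool.Agent.Helper51.WP.Det

/-!
The number of tuples of integers without small prime factors in short intervals
-/

set_option autoImplicit false

open Finset Filter Topology

namespace Pool.Agent.Helper51.WP

open Pool.Agent.TH464.PO Pool.Agent.W123.RP Pool.Agent.W123.RU Pool.Agent.H373R2.T7
open Pool.Agent.TH464.PW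

/-- the upper bound of Mertens -/
theorem mert_up : ∀ᶠ y : ℕ in atTop, ∏ p ∈ pz y, (1 - 1 / (p : ℝ)) ≤ 1 / Real.log y := by
  have h := Pool.Agent.H305R2.mertens_three
  have h1 : (1 : ℝ) < Real.exp Real.eulerMascheroniConstant := by
    apply Real.one_lt_exp_iff.2
    have := Real.one_half_lt_eulerMascheroniConstant
    linarith
  filter_upwards [h.eventually (lt_mem_nhds h1), eventually_ge_atTop 3] with y h2 h3
  have hy : (3 : ℝ) ≤ y := by exact_mod_cast h3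
  have hlog : 0 < Real.log y := Real.log_pos (by linarith)
  rw [lt_div_iff₀ hlog, one_mul, prod_inv_distrib] at h2
  obtain ⟨W, hW⟩ : ∃ W : ℝ, W = ∏ p ∈ pz y, (1 - 1 / (p : ℝ)) := ⟨_, rfl⟩
  have h4 : (∏ p ∈ (Icc 1 y).filter Nat.Prime, (1 - (p : ℝ)⁻¹)) = W := by
    rw [hW]
    unfold pz
    simp only [one_div]
  rw [h4] at h2
  rw [← hW]
  have h0 : 0 ≤ W := by
    rw [hW]
    apply prod_nonneg
    intro p hp
    unfold pz at hp
    rw [mem_filter] at hp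
    have : (1 : ℝ) ≤ p := by exact_mod_cast hp.2.one_lt.le
    have h5 : 1 / (p : ℝ) ≤ 1 := by
      rw [div_le_one (by linarith)]
      exact this
    linarith
  have h5 : 0 < W := by
    by_contra hcon
    have h6 : W = 0 := le_antisymm (not_lt.1 hcon) h0
    rw [h6, inv_zero] at h2
    linarith
  rw [le_div_iff₀ hlog]
  have h7 : Real.log y * W ≤ W⁻¹ * W := by gcongr
  rw [inv_mul_cancel₀ h5.ne'] at h7
  linarith

/-- a single shift has exactly one root -/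
theorem nuB_one (a p : ℕ) (hp : p.Prime) : nuB (QS {a}) p = 1 := by
  classical
  apply le_antisymm
  · have := (qs_perB {a}).few p hp
    rwa [card_singleton] at this
  · obtain ⟨r, hr, hra⟩ := root1 p hp.pos a
    unfold nuB
    rw [Nat.one_le_iff_ne_zero, Finset.card_ne_zero]
    refine ⟨r, ?_⟩
    rw [mem_filter, mem_range]
    exact ⟨hr, a, mem_singleton_self a, hra⟩

theorem ev_y (r : ℕ) (hr : 1 ≤ r) (M : ℕ) : ∀ᶠ X : ℕ in atTop, M ≤ ⌊(X : ℝ) ^ (1 / (r : ℝ))⌋₊ := by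
  have hr0 : (0 : ℝ) < r := by exact_mod_cast hr
  have ht : Tendsto (fun N : ℕ => (N : ℝ) ^ (1 / (r : ℝ))) atTop atTop :=
    (tendsto_rpow_atTop (by positivity)).comp tendsto_natCast_atTop_atTop
  filter_upwards [ht.eventually_ge_atTop (M : ℝ)] with X hX
  exact Nat.le_floor hX

theorem y_tendsto (r : ℕ) (hr : 1 ≤ r) :
    Tendsto (fun X : ℕ => ⌊(X : ℝ) ^ (1 / (r : ℝ))⌋₊) atTop atTop :=
  tendsto_atTop.2 fun M => ev_y r hr M

theorem y_le (r X : ℕ) (hr : 1 ≤ r) (hX : 1 ≤ X) : ⌊(X : ℝ) ^ (1 / (r : ℝ))⌋₊ ≤ X := by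
  have hr0 : (1 : ℝ) ≤ r := by exact_mod_cast hr
  have hX1 : (1 : ℝ) ≤ X := by exact_mod_cast hX
  have h1 : (X : ℝ) ^ (1 / (r : ℝ)) ≤ X := by
    calc (X : ℝ) ^ (1 / (r : ℝ)) ≤ (X : ℝ) ^ (1 : ℝ) := by
          apply Real.rpow_le_rpow_of_exponent_le hX1
          rw [div_le_one (by linarith)]
          exact hr0
      _ = X := Real.rpow_one _
  have h2 := Nat.floor_le_floor h1
  rwa [Nat.floor_natCast] at h2

theorem ev_pow_log (C : ℝ) (R : ℕ) (θ : ℝ) (hθ : 0 < θ) :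
    ∀ᶠ X : ℕ in atTop, (C * Real.log X) ^ R ≤ (X : ℝ) ^ θ := by
  have h1 : (fun y : ℝ => Real.log y ^ R) =o[atTop] (fun y : ℝ => y ^ θ) := by
    have := isLittleO_log_rpow_rpow_atTop (s := θ) (R : ℝ) hθ
    refine this.congr_left fun x => ?_
    rw [Real.rpow_natCast]
  have h2 : ∀ᶠ y : ℝ in atTop, ‖Real.log y ^ R‖ ≤ (1 / (|C| ^ R + 1)) * ‖y ^ θ‖ :=
    h1.bound (by positivity)
  filter_upwards [tendsto_natCast_atTop_atTop.eventually h2, eventually_ge_atTop 1] with X h3 h4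
  have hX : (1 : ℝ) ≤ X := by exact_mod_cast h4
  have hlog : 0 ≤ Real.log (X : ℝ) := Real.log_nonneg hX
  rw [Real.norm_of_nonneg (by positivity), Real.norm_of_nonneg (by positivity)] at h3
  have h5 : (|C| ^ R + 1) * Real.log X ^ R ≤ (X : ℝ) ^ θ := by
    calc (|C| ^ R + 1) * Real.log X ^ R ≤ (|C| ^ R + 1) * (1 / (|C| ^ R + 1) * (X : ℝ) ^ θ) := by gcongr
      _ = _ := by field_simp
  have h6 : (C * Real.log X) ^ R ≤ |C| ^ R * Real.log X ^ R := by
    rw [mul_pow]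
    apply mul_le_mul_of_nonneg_right _ (by positivity)
    calc C ^ R ≤ |C ^ R| := le_abs_self _
      _ = |C| ^ R := abs_pow _ _
  have h7 : 0 ≤ Real.log (X : ℝ) ^ R := by positivity
  linarith

open Classical in
/-- mixed moments for a single shift -/
theorem mom1 {s : ℕ} (k : Fin s → ℕ) (θ : ℝ) (hθ : 0 < θ) (x0 ε : ℝ) (hε : 0 < ε) :
    ∃ r0 : ℕ, ∀ r : ℕ, r0 ≤ r → ∀ᶠ X : ℕ in atTop, ∀ a Z Y : ℕ, (X : ℝ) ^ θ ≤ Y →
      MMo k (Sf (QS {a}) ⌊(X : ℝ) ^ (1 / (r : ℝ))⌋₊) Z Y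
        (Vq (QS {a}) ⌊(X : ℝ) ^ (1 / (r : ℝ))⌋₊) x0 ε := by
  obtain ⟨K0, y0, T0, R0, η', hη', hlaw⟩ := mom_law k 1 le_rfl x0 ε hε
  obtain ⟨v0, hv0, hlow⟩ := V_lower_unif 1
  refine ⟨⌈(K0 : ℝ) / θ⌉₊ + 1, fun r hr => ?_⟩
  have hr1 : 1 ≤ r := by omega
  have hr0 : (0 : ℝ) < r := by exact_mod_cast hr1
  have hrK : (K0 : ℝ) / r ≤ θ := by
    have h1 : (K0 : ℝ) / θ ≤ r := by
      refine (Nat.le_ceil _).trans ?_
      exact_mod_cast (by omega : ⌈(K0 : ℝ) / θ⌉₊ ≤ r)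
    rw [div_le_iff₀ hθ] at h1
    rw [div_le_iff₀ hr0]
    linarith
  filter_upwards [ev_y r hr1 y0, ev_y r hr1 3, (y_tendsto r hr1).eventually mert_up,
    ((Real.tendsto_log_atTop.comp tendsto_natCast_atTop_atTop).comp (y_tendsto r hr1)).eventually_ge_atTop (T0 : ℝ),
    ev_pow_log ((|x0| + 2) / v0) R0 θ hθ, eventually_ge_atTop 3] with X h1 h2 h3 h4 h5 h6
  intro a Z Y hY
  obtain ⟨y, hy⟩ : ∃ y, y = ⌊(X : ℝ) ^ (1 / (r : ℝ))⌋₊ := ⟨_, rfl⟩
  simp only [Function.comp_apply] at h4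
  rw [← hy] at h1 h2 h3 h4 ⊢
  have hX : (3 : ℝ) ≤ X := by exact_mod_cast h6
  have hy3 : (3 : ℝ) ≤ y := by exact_mod_cast h2
  have hyX : y ≤ X := by rw [hy]; exact y_le r X hr1 (by omega)
  have hper : PerB (QS {a}) 1 := by
    have := qs_perB {a}
    rwa [card_singleton] at this
  have hadm : ∀ p : ℕ, p.Prime → nuB (QS {a}) p < p := fun p hp => by
    rw [nuB_one a p hp]
    exact hp.one_lt
  have hV : Vq (QS {a}) y = ∏ p ∈ pz y, (1 - 1 / (p : ℝ)) := by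
    unfold Vq
    apply prod_congr rfl
    intro p hp
    rw [nuB_one a p (mem_pz.1 hp).2, Nat.cast_one]
  have hV0 : 0 < Vq (QS {a}) y := Vq_pos _ hadm y
  have hlogy : 0 < Real.log y := Real.log_pos (by linarith)
  have hlogX : 0 < Real.log X := Real.log_pos (by linarith)
  refine hlaw (QS {a}) Z Y y hper hadm h1 ?_ ?_
  · have e1 : (y : ℝ) ^ K0 ≤ (X : ℝ) ^ θ := by
      calc (y : ℝ) ^ K0 ≤ ((X : ℝ) ^ (1 / (r : ℝ))) ^ K0 := by
            gcongr
            rw [hy]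
            exact Nat.floor_le (by positivity)
        _ = (X : ℝ) ^ ((K0 : ℝ) / r) := by
            rw [← Real.rpow_natCast, ← Real.rpow_mul (by linarith)]
            congr 1
            ring
        _ ≤ (X : ℝ) ^ θ := Real.rpow_le_rpow_of_exponent_le (by linarith) hrK
    exact_mod_cast e1.trans hY
  · intro T hT1 hT2
    have hT0 : (0 : ℝ) ≤ T := Nat.cast_nonneg T
    refine ⟨?_, ?_, ?_⟩
    · have e1 : 1 ≤ T * (1 / Real.log y) := by
        refine hT1.trans ?_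
        rw [hV]
        gcongr
      rw [mul_one_div, le_div_iff₀ hlogy, one_mul] at e1
      exact_mod_cast h4.trans e1
    · have e2 := hlow (QS {a}) hper hadm y (by omega)
      rw [pow_one] at e2
      have e3 : (T : ℝ) ≤ (|x0| + 2) / v0 * Real.log X := by
        have e4 : (T : ℝ) * (v0 / Real.log y) ≤ |x0| + 2 :=
          (mul_le_mul_of_nonneg_left e2 hT0).trans hT2
        have e5 : Real.log y ≤ Real.log X := Real.log_le_log (by linarith) (by exact_mod_cast hyX)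
        rw [div_mul_eq_mul_div, le_div_iff₀ hv0]
        calc (T : ℝ) * v0 = T * (v0 / Real.log y) * Real.log y := by field_simp
          _ ≤ (|x0| + 2) * Real.log X := by gcongr
      have e4 : (T : ℝ) ^ R0 ≤ ((|x0| + 2) / v0 * Real.log X) ^ R0 := by gcongr
      exact_mod_cast e4.trans (h5.trans hY)
    · intro t ht
      rw [mem_Icc] at ht
      have : (pz y).filter (fun p : ℕ => T < p ∧ CoG (QS {a}) p t) = ∅ := by
        rw [filter_eq_empty_iff]
        rintro p - ⟨hp, m, ⟨b, hb, hm1⟩, ⟨c, hc, hm2⟩⟩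
        rw [mem_singleton] at hb hc
        subst hb hc
        have h7 : p ∣ t := by
          have h8 : m + t + c = (m + c) + t := by ring
          rw [h8] at hm2
          exact (Nat.dvd_add_right hm1).1 hm2
        have := Nat.le_of_dvd (by omega) h7
        omega
      rw [this]
      simp only [card_empty, Nat.cast_zero]
      positivity

/-- mixed moments for patterns of shifts -/
theorem momK (K A : ℕ) (hK : 1 ≤ K) {s : ℕ} (k : Fin s → ℕ) (θ : ℝ) (hθ : 0 < θ) (x0 ε : ℝ)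
    (hε : 0 < ε) : ∃ r0 : ℕ, ∀ r : ℕ, r0 ≤ r → ∀ᶠ X : ℕ in atTop, ∀ P : Finset ℕ, P.card = K →
      (∀ a ∈ P, a ≤ X ^ A) → AdP P → ∀ Z Y : ℕ, (X : ℝ) ^ θ ≤ Y →
      MMo k (Sf (QS P) ⌊(X : ℝ) ^ (1 / (r : ℝ))⌋₊) Z Y
        (Vq (QS P) ⌊(X : ℝ) ^ (1 / (r : ℝ))⌋₊) x0 ε := by
  rcases Nat.lt_or_ge K 2 with h | h
  · obtain ⟨r0, h0⟩ := mom1 k θ hθ x0 ε hε
    refine ⟨r0, fun r hr => ?_⟩
    filter_upwards [h0 r hr] with X hX P hP _ _ Z Y hY
    obtain ⟨a, rfl⟩ := card_eq_one.1 (show P.card = 1 by omega)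
    exact hX a Z Y hY
  · exact shift_mom K A h θ hθ k x0 ε hε

end Pool.Agent.Helper51.WP
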