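import Pool.Agent.Helper51.WP.Tup

/-!
Short intervals contain the expected number of tuples without small prime factors
-/

set_option autoImplicit false

open Finset Filter Topology

namespace Pool.Agent.Helper51.WP

open Pool.Agent.TH464.PO Pool.Agent.W123.RP Pool.Agent.W123.RU Pool.Agent.H373R2.T7
open Pool.Agent.TH464.PW

/-- the level -/
noncomputable def yy (r N : ℕ) : ℕ := ⌊(N : ℝ) ^ (1 / (r : ℝ))⌋₊

/-- the sieve product -/
noncomputable def Vp (P : Finset ℕ) (y : ℕ) : ℝ := Vq (QS P) y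

open Classical in
/-- the indicator function of the tuples without small prime factors -/
noncomputable def ρ (P : Finset ℕ) (y n : ℕ) : ℝ := if Sf (QS P) y n then 1 else 0

theorem ρ_mem (P : Finset ℕ) (y n : ℕ) : 0 ≤ ρ P y n ∧ ρ P y n ≤ 1 := by
  unfold ρ
  split_ifs
  · exact ⟨zero_le_one, le_rfl⟩
  · exact ⟨le_rfl, zero_le_one⟩

theorem Vp_pos (P : Finset ℕ) (h : AdP P) (y : ℕ) : 0 < Vp P y :=
  Vq_pos _ (fun p hp => qs_adm P h p hp) y

theorem Vp_le_one (P : Finset ℕ) (y : ℕ) : Vp P y ≤ 1 := Vq_le_one _ _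

/-- the lower bound for the sieve product -/
theorem Vp_low (K : ℕ) : ∃ c : ℝ, 0 < c ∧ ∀ r : ℕ, 1 ≤ r → ∀ᶠ N : ℕ in atTop, ∀ P : Finset ℕ,
    P.card = K → AdP P → c / Real.log N ^ K ≤ Vp P (yy r N) := by
  obtain ⟨c, hc, h⟩ := V_lower_unif K
  refine ⟨c, hc, fun r hr => ?_⟩
  filter_upwards [ev_y r hr 3, eventually_ge_atTop 3] with N h1 h2 P hP hA
  have h3 := h (QS P) (qs_per P K hP) (fun p hp => qs_adm P hA p hp) (yy r N) (by unfold yy; omega)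
  refine le_trans ?_ h3
  have hy3 : (3 : ℝ) ≤ (yy r N : ℕ) := by unfold yy; exact_mod_cast h1
  have hyN : ((yy r N : ℕ) : ℝ) ≤ N := by unfold yy; exact_mod_cast y_le r N hr (by omega)
  have hlog : 0 < Real.log (yy r N : ℕ) := Real.log_pos (by linarith)
  have hlog2 : Real.log (yy r N : ℕ) ≤ Real.log N := Real.log_le_log (by linarith) hyN
  gcongr

theorem win_Cc (P : Finset ℕ) (y v a : ℕ) : (Cc (Sf (QS P) y) (a + 0) (a + v) : ℝ) = win (ρ P y) v a := by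
  classical
  unfold win ρ
  rw [← sum_filter, sum_const, nsmul_eq_mul, mul_one, Cc_eq, add_zero]
  congr 1
  apply card_bij' (fun m _ => m - a) (fun h _ => a + h)
  · intro m hm
    rw [mem_filter, mem_Ioc] at hm ⊢
    refine ⟨by omega, ?_⟩
    rw [show a + (m - a) = m by omega]
    exact hm.2
  · intro h hh
    rw [mem_filter, mem_Ioc] at hh ⊢
    exact ⟨by omega, hh.2⟩
  · intro m hm
    rw [mem_filter, mem_Ioc] at hm
    show a + (m - a) = m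
    omega
  · intro h _
    show a + h - a = h
    omega

/-- the windows contain the expected number of tuples -/
theorem window (K A : ℕ) (hK : 1 ≤ K) (ε : ℝ) (hε : 0 < ε) : ∃ x : ℝ, 2 ≤ x ∧ ∃ r₀ : ℕ, 1 ≤ r₀ ∧
    ∀ r : ℕ, r₀ ≤ r → ∀ᶠ N : ℕ in atTop, ∀ P : Finset ℕ, P.card = K → (∀ a ∈ P, a ≤ N ^ A) → AdP P →
      ∃ v : ℕ, 1 ≤ v ∧ v * Vp P (yy r N) ≤ x ∧
      ∑ a ∈ Icc 1 N, |win (ρ P (yy r N)) v a - v * Vp P (yy r N)| ≤
        ε * ((v * Vp P (yy r N)) * N) := by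
  -- the constants
  obtain ⟨x, hx2, hx⟩ : ∃ x : ℝ, 2 ≤ x ∧ (x + 1) ≤ (ε * (x - 1)) ^ 2 := by
    refine ⟨3 + 3 / ε ^ 2, by have : 0 < 3 / ε ^ 2 := by positivity
                              linarith, ?_⟩
    have h1 : (ε * (3 + 3 / ε ^ 2 - 1)) ^ 2 = 4 * ε ^ 2 + 12 + 9 / ε ^ 2 := by
      field_simp
      ring
    rw [h1]
    have h2 : 0 < 3 / ε ^ 2 := by positivity
    have h3 : 9 / ε ^ 2 = 3 * (3 / ε ^ 2) := by ring
    have h4 : 0 < ε ^ 2 := by positivity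
    linarith
  obtain ⟨e, he⟩ : ∃ e : ℝ, e = 1 / (3 + 2 * x) := ⟨_, rfl⟩
  have he0 : 0 < e := by rw [he]; positivity
  have hex : e * (3 + 2 * x) = 1 := by rw [he]; field_simp
  obtain ⟨r₁, h₁⟩ := momK K A hK (s := 1) (fun _ => 1) 1 one_pos x e he0
  obtain ⟨r₂, h₂⟩ := momK K A hK (s := 1) (fun _ => 2) 1 one_pos x e he0
  refine ⟨x, hx2, max (max r₁ r₂) 1, le_max_right _ _, fun r hr => ?_⟩
  have hr1 : 1 ≤ r := (le_max_right _ _).trans hr
  have hra : r₁ ≤ r := (le_max_left _ _).trans ((le_max_left _ _).trans hr)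
  have hrb : r₂ ≤ r := (le_max_right _ _).trans ((le_max_left _ _).trans hr)
  filter_upwards [h₁ r hra, h₂ r hrb, eventually_ge_atTop 3] with N g₁ g₂ hN3 P hP hPA hPad
  have hN3' : (3 : ℝ) ≤ N := by exact_mod_cast hN3
  have hN0 : (0 : ℝ) < N := by linarith
  obtain ⟨V, hVdef⟩ : ∃ V : ℝ, V = Vp P (yy r N) := ⟨_, rfl⟩
  have hVq : Vq (QS P) ⌊(N : ℝ) ^ (1 / (r : ℝ))⌋₊ = V := hVdef.symm
  have hV0 : 0 < V := by rw [hVdef]; exact Vp_pos P hPad _
  have hV1 : V ≤ 1 := by rw [hVdef]; exact Vp_le_one P _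
  rw [← hVdef]
  obtain ⟨v, hv⟩ : ∃ v : ℕ, v = ⌊x / V⌋₊ := ⟨_, rfl⟩
  have hvx : (v : ℝ) ≤ x / V := by rw [hv]; exact Nat.floor_le (by positivity)
  have hvx' : x / V < v + 1 := by rw [hv]; exact Nat.lt_floor_add_one _
  have hlam1 : v * V ≤ x := by rwa [le_div_iff₀ hV0] at hvx
  have hlam2 : x - 1 ≤ v * V := by
    rw [div_lt_iff₀ hV0] at hvx'
    nlinarith
  have hv1 : 1 ≤ v := by
    by_contra hcon
    have : v = 0 := by omega
    rw [this] at hlam2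
    norm_num at hlam2
    linarith
  refine ⟨v, hv1, hlam1, ?_⟩
  have hN1 : (N : ℝ) ^ (1 : ℝ) ≤ N := (Real.rpow_one _).le
  have k₁ := g₁ P hP hPA hPad 0 N hN1 (fun _ => 0) (fun _ => v) (fun _ => Nat.zero_le _)
    (fun _ => by rw [hVq]; exact hlam1) (fun i j hij => absurd (Subsingleton.elim i j) hij)
  have k₂ := g₂ P hP hPA hPad 0 N hN1 (fun _ => 0) (fun _ => v) (fun _ => Nat.zero_le _)
    (fun _ => by rw [hVq]; exact hlam1) (fun i j hij => absurd (Subsingleton.elim i j) hij)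
  have hset : Ioc 0 (0 + N) = Icc 1 N := by
    ext a
    simp only [mem_Ioc, mem_Icc]
    omega
  rw [hset, hVq] at k₁ k₂
  have hch : ∀ n : ℕ, ((n.choose 2 : ℕ) : ℝ) = ((n : ℝ) ^ 2 - n) / 2 := by
    intro n
    rw [Nat.cast_choose_two]
    ring
  simp only [Fin.prod_univ_one, Nat.choose_one_right, Nat.cast_zero, sub_zero, pow_one,
    Nat.factorial_one, Nat.cast_one, div_one, win_Cc] at k₁
  simp only [Fin.prod_univ_one, Nat.cast_zero, sub_zero, Nat.factorial_two, hch, win_Cc] at k₂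
  have hyy : ⌊(N : ℝ) ^ (1 / (r : ℝ))⌋₊ = yy r N := rfl
  rw [hyy] at k₁ k₂
  obtain ⟨w, hw⟩ : ∃ w : ℕ → ℝ, w = fun a => win (ρ P (yy r N)) v a := ⟨_, rfl⟩
  obtain ⟨lam, hlam⟩ : ∃ lam : ℝ, lam = v * V := ⟨_, rfl⟩
  have hwa : ∀ a, win (ρ P (yy r N)) v a = w a := fun a => by rw [hw]
  simp_rw [hwa] at k₁ k₂ ⊢
  rw [← hlam] at k₁ k₂ hlam1 hlam2 ⊢
  have hlam0 : 0 < lam := by linarith
  rw [← sum_div, sum_sub_distrib] at k₂
  obtain ⟨S₁, hS₁⟩ : ∃ S₁ : ℝ, S₁ = ∑ a ∈ Icc 1 N, w a := ⟨_, rfl⟩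
  obtain ⟨S₂, hS₂⟩ : ∃ S₂ : ℝ, S₂ = ∑ a ∈ Icc 1 N, w a ^ 2 := ⟨_, rfl⟩
  rw [← hS₁] at k₁ k₂
  rw [← hS₂] at k₂
  -- the variance
  have hvar : ∑ a ∈ Icc 1 N, (w a - lam) ^ 2 ≤ (x + 1) * N := by
    have e3 : ∑ a ∈ Icc 1 N, (w a - lam) ^ 2 = S₂ - 2 * lam * S₁ + lam ^ 2 * N := by
      rw [hS₁, hS₂, mul_sum]
      have : (lam ^ 2 * (N : ℝ)) = ∑ _a ∈ Icc 1 N, lam ^ 2 := by
        rw [sum_const, nsmul_eq_mul, Nat.card_Icc, Nat.add_sub_cancel]
        ring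
      rw [this, ← sum_sub_distrib, ← sum_add_distrib]
      apply sum_congr rfl
      intro a _
      ring
    rw [e3]
    have a1 := abs_le.1 k₁
    have a2 := abs_le.1 k₂
    have a3 : S₁ ≤ lam * N + e * N := by linarith
    have a4 : lam * N - e * N ≤ S₁ := by linarith
    have a5 : S₂ ≤ S₁ + lam ^ 2 * N + 2 * (e * N) := by
      have : (S₂ - S₁) / 2 ≤ N * (lam ^ 2 / 2) + e * N := by
        have := a2.2
        norm_num at this
        linarith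
      linarith
    have a6 : 2 * lam * (lam * N - e * N) ≤ 2 * lam * S₁ := by gcongr
    have a7 : e * (3 + 2 * lam) ≤ 1 := by
      have : e * (3 + 2 * lam) ≤ e * (3 + 2 * x) := by gcongr
      linarith
    have a8 : e * (3 + 2 * lam) * N ≤ 1 * N := by gcongr
    have a9 : lam * N ≤ x * N := by gcongr
    nlinarith
  -- Cauchy-Schwarz
  have hcs : (∑ a ∈ Icc 1 N, |w a - lam|) ^ 2 ≤ (ε * (lam * N)) ^ 2 := by
    have h1 := sq_sum_le_card_mul_sum_sq (s := Icc 1 N) (f := fun a => |w a - lam|)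
    simp only [sq_abs] at h1
    rw [Nat.card_Icc, Nat.add_sub_cancel] at h1
    calc (∑ a ∈ Icc 1 N, |w a - lam|) ^ 2 ≤ N * ∑ a ∈ Icc 1 N, (w a - lam) ^ 2 := h1
      _ ≤ N * ((x + 1) * N) := by gcongr
      _ ≤ N * ((ε * (x - 1)) ^ 2 * N) := by gcongr
      _ = (ε * ((x - 1) * N)) ^ 2 := by ring
      _ ≤ (ε * (lam * N)) ^ 2 := by
          have : 0 ≤ x - 1 := by linarith
          gcongr
  exact (abs_le_of_sq_le_sq' hcs (by positivity)).2

end Pool.Agent.Helper51.WP
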